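import Pool.Agent.W5h84.NK.Basic

set_option autoImplicit false

/-!
# The function `k(n)`
-/

namespace Pool.Agent.W5h84.NK

open SimpleGraph

/-- `k ∈ {1, …, n}` has the property that every non-complete `(n, k)`-graph has diameter two. -/
def Good (n k : ℕ) : Prop :=
  1 ≤ k ∧ k ≤ n ∧ ∀ (V : Type) (_ : Finite V) (G : SimpleGraph V), IsNK G n k → G ≠ ⊤ → G.diam = 2

/-- `k(n)` is the least integer `k ∈ {1, …, n}` such that every non-complete `(n, k)`-graph has
diameter two. -/
noncomputable def kn (n : ℕ) : ℕ := sInf {k | Good n k}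

variable {V : Type}

lemma IsNK.mono {G : SimpleGraph V} {n j k : ℕ} (h : IsNK G n k) (hjk : j ≤ k) : IsNK G n j :=
  fun X hX => h X (hX.trans hjk)

/-- enlarging a connected set of vertices -/
lemma grow {G : SimpleGraph V} [Finite V] (hG : ¬ Sep G ∅) (m : ℕ) (hm : m + 1 ≤ Nat.card V) :
    ∃ S : Set V, S.ncard = m + 1 ∧ ¬ Sep G Sᶜ := by
  induction m with
  | zero =>
    have : Nonempty V := (Nat.card_pos_iff.1 (by omega)).1
    obtain ⟨v⟩ := this
    refine ⟨{v}, Set.ncard_singleton v, ?_⟩
    rintro ⟨F, F', ⟨x, hx⟩, ⟨y, hy⟩, hd, hu, -⟩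
    rw [compl_compl] at hu
    have hx' : x = v := by
      have : x ∈ ({v} : Set V) := hu ▸ Or.inl hx
      exact this
    have hy' : y = v := by
      have : y ∈ ({v} : Set V) := hu ▸ Or.inr hy
      exact this
    subst hx'
    subst hy'
    exact Set.disjoint_left.1 hd hx hy
  | succ m ih =>
    obtain ⟨S, hS, hsep⟩ := ih (by omega)
    have hedge : ∃ x ∈ S, ∃ w ∉ S, G.Adj x w := by
      by_contra hcon
      push Not at hcon
      apply hG
      refine ⟨S, Sᶜ, ?_, ?_, disjoint_compl_right, ?_, fun x hx y hy => hcon x hx y hy⟩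
      · exact (Set.ncard_pos (Set.toFinite _)).1 (by omega)
      · have h1 : S.ncard + Sᶜ.ncard = Nat.card V := Set.ncard_add_ncard_compl S
        exact (Set.ncard_pos (Set.toFinite _)).1 (by omega)
      · rw [Set.union_compl_self, Set.compl_empty]
    obtain ⟨x, hx, w, hw, hxw⟩ := hedge
    refine ⟨insert w S, ?_, ?_⟩
    · rw [Set.ncard_insert_of_notMem hw (Set.toFinite _), hS]
    have key : ∀ F F' : Set V, F.Nonempty → F'.Nonempty → Disjoint F F' →
        F ∪ F' = insert w S → (∀ x ∈ F, ∀ y ∈ F', ¬ G.Adj x y) → w ∈ F → False := by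
      intro F F' hF hF' hd hu h hwF
      have hwF' : w ∉ F' := Set.disjoint_left.1 hd hwF
      have hF'S : F' ⊆ S := by
        intro y hy
        have : y ∈ insert w S := hu ▸ Or.inr hy
        rcases this with rfl | h'
        · exact absurd hy hwF'
        · exact h'
      by_cases hne : (F ∩ S).Nonempty
      · apply hsep
        refine ⟨F ∩ S, F', hne, hF', hd.mono_left Set.inter_subset_left, ?_, fun x hx y hy =>
          h x hx.1 y hy⟩
        rw [compl_compl]
        ext z
        constructor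
        · rintro (hz | hz)
          · exact hz.2
          · exact hF'S hz
        · intro hz
          have : z ∈ F ∪ F' := by
            rw [hu]
            exact Or.inr hz
          rcases this with h' | h'
          · exact Or.inl ⟨h', hz⟩
          · exact Or.inr h'
      · have hxF' : x ∈ F' := by
          have : x ∈ F ∪ F' := by
            rw [hu]
            exact Or.inr hx
          rcases this with h' | h'
          · exact absurd ⟨x, h', hx⟩ hne
          · exact h'
        exact h w hwF x hxF' hxw.symm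
    rintro ⟨F, F', hF, hF', hd, hu, h⟩
    rw [compl_compl] at hu
    have hwu : w ∈ F ∪ F' := by
      rw [hu]
      exact Or.inl rfl
    rcases hwu with h' | h'
    · exact key F F' hF hF' hd hu h h'
    · exact key F' F hF' hF hd.symm (by rw [Set.union_comm]; exact hu)
        (fun x hx y hy hxy => h y hy x hx hxy.symm) h'

/-- There is no non-complete `(n, n)`-graph, `n ≥ 1`. -/
theorem no_nn [Finite V] {G : SimpleGraph V} {n : ℕ} (hn : 1 ≤ n) (h : IsNK G n n) : G = ⊤ := by
  by_contra hG
  obtain ⟨u, v, huv, hadj⟩ : ∃ u v, u ≠ v ∧ ¬ G.Adj u v := by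
    by_contra hcon
    push Not at hcon
    apply hG
    ext u v
    rw [top_adj]
    exact ⟨fun h => h.ne, fun h => hcon u v h⟩
  have hmu : mu G = n := by
    have h0 := h ∅ (by simp)
    rw [Set.ncard_empty, add_zero] at h0
    rw [← h0]
    -- the induced subgraph on all vertices
    unfold mu
    congr 1
    have hcard : Nat.card ↥((∅ : Set V)ᶜ) = Nat.card V := by
      rw [Nat.card_coe_set_eq, Set.compl_empty, Set.ncard_univ]
    rw [hcard]
    congr 1
    ext c
    constructor
    · rintro ⟨S, hS, hS'⟩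
      rw [sep_iff] at hS'
      refine ⟨Subtype.val ⁻¹' S, ?_, ?_⟩
      · rw [← hS, ← Set.ncard_image_of_injective _ Subtype.val_injective,
          Subtype.image_preimage_coe, Set.compl_empty, Set.univ_inter]
      · rw [sep_iff, sep_induce, Subtype.image_preimage_coe, Set.compl_empty, Set.univ_inter,
          Set.empty_union]
        exact hS'
    · rintro ⟨S, hS, hS'⟩
      rw [sep_iff, sep_induce, Set.empty_union] at hS'
      refine ⟨Subtype.val '' S, ?_, ?_⟩
      · rw [Set.ncard_image_of_injective _ Subtype.val_injective, hS]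
      · rwa [sep_iff]
  have hcut : Sep G ({u, v} : Set V)ᶜ := by
    refine ⟨{u}, {v}, ⟨u, rfl⟩, ⟨v, rfl⟩, ?_, ?_, ?_⟩
    · rw [Set.disjoint_singleton]
      exact huv
    · rw [compl_compl]
      rfl
    · rintro _ rfl _ rfl
      exact hadj
  have hcard : n + 2 ≤ Nat.card V := by
    have h1 : mu G ≤ (({u, v} : Set V)ᶜ).ncard := by
      apply Nat.sInf_le
      left
      exact ⟨_, rfl, (sep_iff G _).2 hcut⟩
    have h2 : ({u, v} : Set V).ncard + (({u, v} : Set V)ᶜ).ncard = Nat.card V :=
      Set.ncard_add_ncard_compl _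
    rw [Set.ncard_pair huv] at h2
    omega
  have hsep : ¬ Sep G ∅ := by
    intro hs
    have h1 : mu G ≤ 0 := by
      apply Nat.sInf_le
      left
      exact ⟨∅, Set.ncard_empty V, (sep_iff G _).2 hs⟩
    omega
  obtain ⟨S, hS, hS'⟩ := grow hsep (Nat.card V - n - 1) (by omega)
  have h3 : S.ncard + Sᶜ.ncard = Nat.card V := Set.ncard_add_ncard_compl S
  have h4 := h Sᶜ (by omega)
  have h5 : mu (G.induce Sᶜᶜ) = 0 := by omega
  have h6 : (0 : ℕ) ∈ ({c | ∃ R : Set ↥(Sᶜᶜ), R.ncard = c ∧
      ¬ ((G.induce Sᶜᶜ).induce Rᶜ).Preconnected} ∪ {Nat.card ↥(Sᶜᶜ) - 1} : Set ℕ) := by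
    unfold mu at h5
    rw [← h5]
    exact Nat.sInf_mem ⟨_, Or.inr rfl⟩
  rcases h6 with ⟨R, hR, hR'⟩ | h6
  · rw [sep_iff, sep_induce] at hR'
    have hR0 : R = ∅ := by
      rwa [Set.ncard_eq_zero (Set.toFinite _)] at hR
    rw [hR0, Set.image_empty, Set.union_empty] at hR'
    exact hS' hR'
  · rw [Set.mem_singleton_iff, Nat.card_coe_set_eq, compl_compl] at h6
    omega

lemma good_self {n : ℕ} (hn : 1 ≤ n) : Good n n :=
  ⟨hn, le_rfl, fun _ _ _ h hG => absurd (no_nn hn h) hG⟩

lemma good_kn {n : ℕ} (hn : 1 ≤ n) : Good n (kn n) := by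
  have h : sInf {k | Good n k} ∈ {k | Good n k} := Nat.sInf_mem ⟨n, good_self hn⟩
  exact h

/-- An `(n, k)`-graph of diameter three gives `k < k(n)`. -/
theorem lt_kn {n k : ℕ} (hn : 1 ≤ n) (h : ∃ (V : Type) (G : SimpleGraph V), Finite V ∧ IsNK G n k ∧
    G.Connected ∧ G.diam = 3) : k < kn n := by
  obtain ⟨V, G, hV, hG, -, hd⟩ := h
  by_contra hcon
  obtain ⟨-, -, h3⟩ := good_kn hn
  have hne : G ≠ ⊤ := by
    rintro rfl
    rcases subsingleton_or_nontrivial V with h1 | h1
    · rw [diam_eq_zero.2 (Or.inr h1)] at hd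
      exact absurd hd (by norm_num)
    · rw [diam_top] at hd
      exact absurd hd (by norm_num)
  have := h3 V hV G (hG.mono (by omega)) hne
  omega

end Pool.Agent.W5h84.NK
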