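import Pool.Agent.W5h84.NK.Dbl

set_option autoImplicit false
set_option linter.unusedSectionVars false

/-!
# Arc-transitive graphs: the connectivity is the degree
-/

namespace Pool.Agent.W5h84.NK

open SimpleGraph

variable {W : Type} {Q : SimpleGraph W} [Finite W]

/-- the vertices outside a set and its boundary -/
def st (Q : SimpleGraph W) (A : Set W) : Set W := (A ∪ bd Q A)ᶜ

lemma mem_bd {A : Set W} {x : W} : x ∈ bd Q A ↔ x ∉ A ∧ ∃ i ∈ A, Q.Adj i x := Iff.rfl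

lemma mem_st {A : Set W} {x : W} : x ∈ st Q A ↔ x ∉ A ∧ ∀ i ∈ A, ¬ Q.Adj i x := by
  unfold st
  simp only [Set.mem_compl_iff, Set.mem_union, mem_bd, not_or, not_and, not_exists]
  constructor
  · rintro ⟨h1, h2⟩
    exact ⟨h1, fun i hi hx => h2 h1 i hi hx⟩
  · rintro ⟨h1, h2⟩
    exact ⟨h1, fun _ i hi hx => h2 i hi hx⟩

lemma tri_split (B : Set W) (x : W) : x ∈ B ∨ x ∈ bd Q B ∨ x ∈ st Q B := by
  by_cases h : x ∈ B
  · exact Or.inl h
  · by_cases h2 : x ∈ bd Q B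
    · exact Or.inr (Or.inl h2)
    · exact Or.inr (Or.inr (fun h3 => h3.elim h h2))

lemma bd_not {B : Set W} {x : W} (h : x ∈ bd Q B) : x ∉ B := h.1

lemma st_not {B : Set W} {x : W} (h : x ∈ st Q B) : x ∉ B ∧ x ∉ bd Q B :=
  ⟨fun h1 => h (Or.inl h1), fun h1 => h (Or.inr h1)⟩

lemma split_card (E B : Set W) :
    E.ncard = (E ∩ B).ncard + (E ∩ bd Q B).ncard + (E ∩ st Q B).ncard := by
  have h1 : E = (E ∩ B ∪ E ∩ bd Q B) ∪ E ∩ st Q B := by
    ext x
    constructor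
    · intro hx
      rcases tri_split (Q := Q) B x with h | h | h
      · exact Or.inl (Or.inl ⟨hx, h⟩)
      · exact Or.inl (Or.inr ⟨hx, h⟩)
      · exact Or.inr ⟨hx, h⟩
    · rintro ((⟨h, _⟩ | ⟨h, _⟩) | ⟨h, _⟩) <;> exact h
  have h2 : Disjoint (E ∩ B) (E ∩ bd Q B) := by
    rw [Set.disjoint_left]
    rintro x ⟨_, hx⟩ ⟨_, hx'⟩
    exact bd_not hx' hx
  have h3 : Disjoint (E ∩ B ∪ E ∩ bd Q B) (E ∩ st Q B) := by
    rw [Set.disjoint_left]
    rintro x (⟨_, hx⟩ | ⟨_, hx⟩) ⟨_, hx'⟩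
    · exact (st_not hx').1 hx
    · exact (st_not hx').2 hx
  conv_lhs => rw [h1]
  rw [Set.ncard_union_eq h3 (Set.toFinite _) (Set.toFinite _),
    Set.ncard_union_eq h2 (Set.toFinite _) (Set.toFinite _)]

/-- a fragment -/
def Frg (Q : SimpleGraph W) (κ : ℕ) (A : Set W) : Prop :=
  A.Nonempty ∧ (st Q A).Nonempty ∧ (bd Q A).ncard = κ

/-- `κ`-connectivity -/
def Cn (Q : SimpleGraph W) (κ : ℕ) : Prop :=
  ∀ A : Set W, A.Nonempty → (st Q A).Nonempty → κ ≤ (bd Q A).ncard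

variable {κ : ℕ}

lemma st_inter {A B : Set W} : st Q A ⊆ st Q (A ∩ B) := by
  intro x hx
  rw [mem_st] at hx ⊢
  exact ⟨fun h => hx.1 h.1, fun i hi => hx.2 i hi.1⟩

lemma st_union {A B : Set W} : st Q (A ∪ B) = st Q A ∩ st Q B := by
  ext x
  rw [Set.mem_inter_iff, mem_st, mem_st, mem_st]
  constructor
  · rintro ⟨h1, h2⟩
    exact ⟨⟨fun h => h1 (Or.inl h), fun i hi => h2 i (Or.inl hi)⟩,
      ⟨fun h => h1 (Or.inr h), fun i hi => h2 i (Or.inr hi)⟩⟩
  · rintro ⟨⟨h1, h2⟩, h3, h4⟩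
    exact ⟨fun h => h.elim h1 h3, fun i hi => hi.elim (h2 i) (h4 i)⟩

/-- the complement of a fragment is a fragment -/
lemma frg_st (hc : Cn Q κ) {A : Set W} (hA : Frg Q κ A) : Frg Q κ (st Q A) := by
  obtain ⟨h1, h2, h3⟩ := hA
  have h4 : bd Q (st Q A) ⊆ bd Q A := by
    rintro x ⟨hx, i, hi, hix⟩
    rcases tri_split (Q := Q) A x with h | h | h
    · exact absurd hix.symm ((mem_st.1 hi).2 x h)
    · exact h
    · exact absurd h hx
  have h5 : A ⊆ st Q (st Q A) := by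
    intro x hx
    rw [mem_st]
    exact ⟨fun h => (mem_st.1 h).1 hx, fun i hi hix => (mem_st.1 hi).2 x hx hix.symm⟩
  have h6 : (st Q (st Q A)).Nonempty := h1.mono h5
  exact ⟨h2, h6, le_antisymm (h3 ▸ Set.ncard_le_ncard h4 (Set.toFinite _)) (hc _ h2 h6)⟩

lemma bd_inter_le (A B : Set W) : (bd Q (A ∩ B)).ncard ≤
    (bd Q A ∩ B).ncard + (bd Q A ∩ bd Q B).ncard + (A ∩ bd Q B).ncard := by
  have h : bd Q (A ∩ B) ⊆ (bd Q A ∩ B ∪ bd Q A ∩ bd Q B) ∪ A ∩ bd Q B := by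
    rintro x ⟨hx, i, hi, hix⟩
    have hA : x ∈ A ∨ x ∈ bd Q A := by
      by_cases h : x ∈ A
      · exact Or.inl h
      · exact Or.inr ⟨h, i, hi.1, hix⟩
    have hB : x ∈ B ∨ x ∈ bd Q B := by
      by_cases h : x ∈ B
      · exact Or.inl h
      · exact Or.inr ⟨h, i, hi.2, hix⟩
    rcases hA with hA | hA <;> rcases hB with hB | hB
    · exact absurd ⟨hA, hB⟩ hx
    · exact Or.inr ⟨hA, hB⟩
    · exact Or.inl (Or.inl ⟨hA, hB⟩)
    · exact Or.inl (Or.inr ⟨hA, hB⟩)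
  refine (Set.ncard_le_ncard h (Set.toFinite _)).trans ?_
  refine (Set.ncard_union_le _ _).trans ?_
  have := Set.ncard_union_le (bd Q A ∩ B) (bd Q A ∩ bd Q B)
  omega

lemma bd_union_le (A B : Set W) : (bd Q (A ∪ B)).ncard ≤
    (bd Q A ∩ bd Q B).ncard + (bd Q A ∩ st Q B).ncard + (bd Q B ∩ st Q A).ncard := by
  have h : bd Q (A ∪ B) ⊆ (bd Q A ∩ bd Q B ∪ bd Q A ∩ st Q B) ∪ bd Q B ∩ st Q A := by
    rintro x ⟨hx, i, hi, hix⟩
    have hxA : x ∉ A := fun h => hx (Or.inl h)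
    have hxB : x ∉ B := fun h => hx (Or.inr h)
    rcases hi with hi | hi
    · have hA : x ∈ bd Q A := ⟨hxA, i, hi, hix⟩
      rcases tri_split (Q := Q) B x with h | h | h
      · exact absurd h hxB
      · exact Or.inl (Or.inl ⟨hA, h⟩)
      · exact Or.inl (Or.inr ⟨hA, h⟩)
    · have hB : x ∈ bd Q B := ⟨hxB, i, hi, hix⟩
      rcases tri_split (Q := Q) A x with h | h | h
      · exact absurd h hxA
      · exact Or.inl (Or.inl ⟨h, hB⟩)
      · exact Or.inr ⟨hB, h⟩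
  refine (Set.ncard_le_ncard h (Set.toFinite _)).trans ?_
  refine (Set.ncard_union_le _ _).trans ?_
  have := Set.ncard_union_le (bd Q A ∩ bd Q B) (bd Q A ∩ st Q B)
  omega

/-- Two atoms which meet are equal. -/
theorem atom_eq (hc : Cn Q κ) {A B : Set W} (hA : Frg Q κ A) (hB : Frg Q κ B) {a : ℕ}
    (ha : ∀ C, Frg Q κ C → a ≤ C.ncard) (hAa : A.ncard = a) (hBa : B.ncard = a)
    (hAB : (A ∩ B).Nonempty) : A = B := by
  have e1 := bd_inter_le (Q := Q) A B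
  have e2 := bd_union_le (Q := Q) A B
  have e3 := split_card (Q := Q) (bd Q A) B
  have e4 := split_card (Q := Q) (bd Q B) A
  have e5 : κ ≤ (bd Q (A ∩ B)).ncard := hc _ hAB (hA.2.1.mono st_inter)
  have e6 : (A ∩ bd Q B).ncard = (bd Q B ∩ A).ncard := by rw [Set.inter_comm]
  have e7 : (bd Q A ∩ bd Q B).ncard = (bd Q B ∩ bd Q A).ncard := by rw [Set.inter_comm]
  have e8 := hA.2.2
  have e9 := hB.2.2
  by_cases hst : (st Q A ∩ st Q B).Nonempty
  · have f1 : κ ≤ (bd Q (A ∪ B)).ncard := by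
      apply hc
      · exact hAB.mono (fun x hx => Or.inl hx.1)
      · rw [st_union]
        exact hst
    have f2 : (bd Q (A ∩ B)).ncard = κ := by omega
    have f3 := ha (A ∩ B) ⟨hAB, hA.2.1.mono st_inter, f2⟩
    have f4 : A ∩ B = A := Set.eq_of_subset_of_ncard_le Set.inter_subset_left (by omega)
      (Set.toFinite _)
    have f5 : A ∩ B = B := Set.eq_of_subset_of_ncard_le Set.inter_subset_right (by omega)
      (Set.toFinite _)
    rw [← f4, f5]
  · exfalso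
    rw [Set.not_nonempty_iff_eq_empty] at hst
    have g1 := split_card (Q := Q) (st Q A) B
    rw [hst, Set.ncard_empty] at g1
    have g2 := split_card (Q := Q) B A
    have g3 := ha _ (frg_st hc hA)
    have g4 : 0 < (A ∩ B).ncard := (Set.ncard_pos (Set.toFinite _)).2 hAB
    have g5 : (B ∩ A).ncard = (A ∩ B).ncard := by rw [Set.inter_comm]
    have g6 : (B ∩ bd Q A).ncard = (bd Q A ∩ B).ncard := by rw [Set.inter_comm]
    have g7 : (B ∩ st Q A).ncard = (st Q A ∩ B).ncard := by rw [Set.inter_comm]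
    have g8 : (bd Q B ∩ st Q A).ncard = (st Q A ∩ bd Q B).ncard := by rw [Set.inter_comm]
    omega

lemma bd_image (φ : Q ≃g Q) (A : Set W) : bd Q (φ '' A) = φ '' bd Q A := by
  ext x
  constructor
  · rintro ⟨hx, _, ⟨i, hi, rfl⟩, hix⟩
    refine ⟨φ.symm x, ⟨?_, i, hi, ?_⟩, φ.apply_symm_apply x⟩
    · intro h
      exact hx ⟨_, h, φ.apply_symm_apply x⟩
    · rw [← φ.map_adj_iff, φ.apply_symm_apply]
      exact hix
  · rintro ⟨y, ⟨hy, i, hi, hiy⟩, rfl⟩
    refine ⟨?_, φ i, ⟨i, hi, rfl⟩, φ.map_adj_iff.2 hiy⟩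
    rintro ⟨z, hz, hzy⟩
    exact hy (φ.injective hzy ▸ hz)

lemma st_image (φ : Q ≃g Q) (A : Set W) : st Q (φ '' A) = φ '' st Q A := by
  unfold st
  rw [bd_image, ← Set.image_union, Set.image_compl_eq φ.bijective]

/-- In an arc-transitive graph of degree `d` in which any two vertices have a common neighbour,
every separating set has at least `d` elements. -/
theorem conn_arc {d : ℕ} (hreg : ∀ i, (Q.neighborSet i).ncard = d)
    (hcn : ∀ i j : W, ∃ m, Q.Adj m i ∧ Q.Adj m j)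
    (harc : ∀ x y x' y', Q.Adj x y → Q.Adj x' y' → ∃ φ : Q ≃g Q, φ x = x' ∧ φ y = y')
    (T : Set W) (hT : Sep Q T) : d ≤ T.ncard := by
  classical
  by_contra hlt
  push Not at hlt
  -- the least order of a boundary
  have hex : ∃ κ, ∃ A : Set W, A.Nonempty ∧ (st Q A).Nonempty ∧ (bd Q A).ncard = κ ∧ κ < d := by
    obtain ⟨F, F', hF, hF', hd, hu, h⟩ := hT
    have h1 : bd Q F ⊆ T := by
      rintro x ⟨hx, i, hi, hix⟩
      by_contra hxT
      have : x ∈ F ∪ F' := by rw [hu]; exact hxT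
      rcases this with h2 | h2
      · exact hx h2
      · exact h i hi x h2 hix
    refine ⟨_, F, hF, hF'.mono ?_, rfl, (Set.ncard_le_ncard h1 (Set.toFinite _)).trans_lt hlt⟩
    intro x hx
    rw [mem_st]
    exact ⟨fun h2 => Set.disjoint_left.1 hd h2 hx, fun i hi => h i hi x hx⟩
  set κ := Nat.find hex with hκ
  obtain ⟨A0, hA0, hA0', hA0'', hκd⟩ := Nat.find_spec hex
  have hc : Cn Q κ := by
    intro A hA hA'
    by_contra hcon
    push Not at hcon
    exact Nat.find_min hex hcon ⟨A, hA, hA', rfl, hcon.trans hκd⟩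
  -- the least order of a fragment
  have hex2 : ∃ a, ∃ A : Set W, Frg Q κ A ∧ A.ncard = a := ⟨_, A0, ⟨hA0, hA0', hA0''⟩, rfl⟩
  set a := Nat.find hex2 with haa
  obtain ⟨A, hA, hAa⟩ := Nat.find_spec hex2
  have ha : ∀ C, Frg Q κ C → a ≤ C.ncard := fun C hC => Nat.find_min' hex2 ⟨C, hC, rfl⟩
  -- an edge inside
  obtain ⟨x, hx⟩ := hA.1
  have hin : ∃ y ∈ A, Q.Adj x y := by
    by_contra hcon
    push Not at hcon
    have h1 : Q.neighborSet x ⊆ bd Q A := fun y hy => ⟨fun h => hcon y h hy, x, hx, hy⟩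
    have h2 := Set.ncard_le_ncard h1 (Set.toFinite _)
    rw [hreg, hA.2.2] at h2
    omega
  obtain ⟨y, hy, hxy⟩ := hin
  -- an edge leaving
  have hout : (bd Q A).Nonempty := by
    obtain ⟨w, hw⟩ := hA.2.1
    obtain ⟨m, hm1, hm2⟩ := hcn x w
    by_cases hmA : m ∈ A
    · exact absurd hm2 ((mem_st.1 hw).2 m hmA)
    · exact ⟨m, hmA, x, hx, hm1.symm⟩
  obtain ⟨z, hz, x', hx', hxz⟩ := hout
  obtain ⟨φ, h1, h2⟩ := harc x y x' z hxy hxz
  have hφ : Frg Q κ (φ '' A) := by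
    refine ⟨hA.1.image _, ?_, ?_⟩
    · rw [st_image]
      exact hA.2.1.image _
    · rw [bd_image, Set.ncard_image_of_injective _ φ.injective]
      exact hA.2.2
  have heq := atom_eq hc hA hφ ha hAa
    (by rw [Set.ncard_image_of_injective _ φ.injective]; exact hAa) ⟨x', hx', x, hx, h1⟩
  apply hz
  rw [heq, ← h2]
  exact ⟨y, hy, rfl⟩

end Pool.Agent.W5h84.NK
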