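import Mathlib

set_option autoImplicit false

/-!
# Vertex connectivity and `k`-critically `n`-connected graphs
-/

namespace Pool.Agent.W5h84.NK

open SimpleGraph

/-- The vertex connectivity `μ(G)` of a finite graph: the least number of vertices whose removal
disconnects `G`, and the number of vertices minus one if there is no such set of vertices (if `G` is
complete). -/
noncomputable def mu {V : Type} (G : SimpleGraph V) : ℕ :=
  sInf ({c | ∃ S : Set V, S.ncard = c ∧ ¬ (G.induce Sᶜ).Preconnected} ∪ {Nat.card V - 1})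

/-- `(n, k)`-graphs: `μ(G - X) = n - |X|` for all sets `X` of at most `k` vertices. -/
def IsNK {V : Type} (G : SimpleGraph V) (n k : ℕ) : Prop :=
  ∀ X : Set V, X.ncard ≤ k → mu (G.induce Xᶜ) + X.ncard = n

variable {V : Type}

lemma not_preconnected_iff (G : SimpleGraph V) :
    ¬ G.Preconnected ↔ ∃ F : Set V, F.Nonempty ∧ Fᶜ.Nonempty ∧ ∀ x ∈ F, ∀ y ∉ F, ¬ G.Adj x y := by
  constructor
  · intro h
    unfold Preconnected at h
    push Not at h
    obtain ⟨u, v, huv⟩ := h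
    refine ⟨{w | G.Reachable u w}, ⟨u, Reachable.refl u⟩, ⟨v, huv⟩, ?_⟩
    intro x hx y hy hxy
    exact hy (Reachable.trans hx hxy.reachable)
  · rintro ⟨F, ⟨x, hx⟩, ⟨y, hy⟩, h⟩ hp
    obtain ⟨p⟩ := hp x y
    have key : ∀ {a b : V} (p : G.Walk a b), a ∈ F → b ∈ F := by
      intro a b p
      induction p with
      | nil => exact id
      | cons hab _ ih =>
        intro ha
        apply ih
        by_contra hb
        exact h _ ha _ hb hab
    exact hy (key p hx)

/-- A separation of the vertices outside `T`. -/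
def Sep (G : SimpleGraph V) (T : Set V) : Prop :=
  ∃ F F' : Set V, F.Nonempty ∧ F'.Nonempty ∧ Disjoint F F' ∧ F ∪ F' = Tᶜ ∧
    ∀ x ∈ F, ∀ y ∈ F', ¬ G.Adj x y

lemma sep_iff (G : SimpleGraph V) (T : Set V) : ¬ (G.induce Tᶜ).Preconnected ↔ Sep G T := by
  rw [not_preconnected_iff]
  constructor
  · rintro ⟨F, ⟨x, hx⟩, ⟨y, hy⟩, h⟩
    refine ⟨Subtype.val '' F, Subtype.val '' Fᶜ, ⟨x.1, x, hx, rfl⟩, ⟨y.1, y, hy, rfl⟩, ?_, ?_, ?_⟩
    · rw [Set.disjoint_image_iff Subtype.val_injective]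
      exact disjoint_compl_right
    · rw [← Set.image_union, Set.union_compl_self, Set.image_univ, Subtype.range_val]
    · rintro _ ⟨a, ha, rfl⟩ _ ⟨b, hb, rfl⟩ hab
      exact h a ha b hb hab
  · rintro ⟨F, F', ⟨x, hx⟩, ⟨y, hy⟩, hd, hu, h⟩
    have hxT : x ∈ Tᶜ := hu ▸ Or.inl hx
    have hyT : y ∈ Tᶜ := hu ▸ Or.inr hy
    refine ⟨Subtype.val ⁻¹' F, ⟨⟨x, hxT⟩, hx⟩, ⟨⟨y, hyT⟩, ?_⟩, ?_⟩
    · intro hy'
      exact Set.disjoint_left.1 hd hy' hy
    · intro a ha b hb hab
      have hbT : b.1 ∈ F ∪ F' := by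
        rw [hu]
        exact b.2
      rcases hbT with hb' | hb'
      · exact hb hb'
      · exact h a.1 ha b.1 hb' hab

lemma sep_induce (G : SimpleGraph V) (X : Set V) (S : Set ↥(Xᶜ)) :
    Sep (G.induce Xᶜ) S ↔ Sep G (X ∪ Subtype.val '' S) := by
  constructor
  · rintro ⟨F, F', ⟨x, hx⟩, ⟨y, hy⟩, hd, hu, h⟩
    refine ⟨Subtype.val '' F, Subtype.val '' F', ⟨x.1, x, hx, rfl⟩, ⟨y.1, y, hy, rfl⟩, ?_, ?_, ?_⟩
    · rwa [Set.disjoint_image_iff Subtype.val_injective]
    · rw [← Set.image_union, hu]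
      ext v
      simp only [Set.mem_image, Set.mem_compl_iff, Set.mem_union, Subtype.exists, exists_and_right,
        exists_eq_right, not_or, not_exists]
      constructor
      · rintro ⟨h1, h2⟩
        exact ⟨h1, fun h3 => h2⟩
      · rintro ⟨h1, h2⟩
        exact ⟨h1, h2 h1⟩
    · rintro _ ⟨a, ha, rfl⟩ _ ⟨b, hb, rfl⟩ hab
      exact h a ha b hb hab
  · rintro ⟨F, F', ⟨x, hx⟩, ⟨y, hy⟩, hd, hu, h⟩
    have hF : ∀ v, v ∈ F ∪ F' → v ∈ Xᶜ := by
      intro v hv
      rw [hu] at hv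
      exact fun hvX => hv (Or.inl hvX)
    refine ⟨Subtype.val ⁻¹' F, Subtype.val ⁻¹' F', ⟨⟨x, hF x (Or.inl hx)⟩, hx⟩,
      ⟨⟨y, hF y (Or.inr hy)⟩, hy⟩, ?_, ?_, ?_⟩
    · exact hd.preimage _
    · rw [← Set.preimage_union, hu]
      ext v
      simp only [Set.mem_preimage, Set.mem_compl_iff, Set.mem_union, Set.mem_image, not_or,
        not_exists, not_and]
      constructor
      · rintro ⟨_, h2⟩ hv
        exact h2 v hv rfl
      · intro hv
        refine ⟨v.2, ?_⟩
        intro a ha hav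
        rw [← Subtype.ext hav] at hv
        exact hv ha
    · intro a ha b hb hab
      exact h a.1 ha b.1 hb hab

/-- A criterion for `(n, k)`-graphs. -/
theorem isNK_of [Finite V] (G : SimpleGraph V) (n k : ℕ)
    (hc : ∀ T : Set V, T.ncard < n → ¬ Sep G T)
    (hk : ∀ X : Set V, X.ncard ≤ k → ∃ T : Set V, X ⊆ T ∧ T.ncard = n ∧ Sep G T) :
    IsNK G n k := by
  intro X hX
  obtain ⟨T, hXT, hTn, hT⟩ := hk X hX
  have hXn : X.ncard ≤ n := hTn ▸ Set.ncard_le_ncard hXT (Set.toFinite T)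
  -- the number of vertices
  have hcard : n + 2 ≤ Nat.card V := by
    obtain ⟨F, F', hF, hF', hd, hu, _⟩ := hT
    have h1 : T.ncard + Tᶜ.ncard = Nat.card V := Set.ncard_add_ncard_compl T
    have h2 : (F ∪ F').ncard = F.ncard + F'.ncard :=
      Set.ncard_union_eq hd (Set.toFinite _) (Set.toFinite _)
    have h3 : 0 < F.ncard := (Set.ncard_pos (Set.toFinite _)).2 hF
    have h4 : 0 < F'.ncard := (Set.ncard_pos (Set.toFinite _)).2 hF'
    rw [hu] at h2
    omega
  have hXc : Nat.card ↥(Xᶜ) = Nat.card V - X.ncard := by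
    have h1 : X.ncard + Xᶜ.ncard = Nat.card V := Set.ncard_add_ncard_compl X
    rw [Nat.card_coe_set_eq]
    omega
  have hlow : ∀ c ∈ ({c | ∃ S : Set ↥(Xᶜ), S.ncard = c ∧ ¬ ((G.induce Xᶜ).induce Sᶜ).Preconnected} ∪
      {Nat.card ↥(Xᶜ) - 1} : Set ℕ), n - X.ncard ≤ c := by
    rintro c (⟨S, hS, hS'⟩ | hc')
    · rw [sep_iff, sep_induce] at hS'
      by_contra hlt
      push Not at hlt
      refine hc _ ?_ hS'
      have h1 : (X ∪ Subtype.val '' S).ncard ≤ X.ncard + (Subtype.val '' S).ncard :=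
        Set.ncard_union_le _ _
      rw [Set.ncard_image_of_injective S Subtype.val_injective, hS] at h1
      omega
    · rw [Set.mem_singleton_iff] at hc'
      omega
  have hmem : n - X.ncard ∈ ({c | ∃ S : Set ↥(Xᶜ), S.ncard = c ∧
      ¬ ((G.induce Xᶜ).induce Sᶜ).Preconnected} ∪ {Nat.card ↥(Xᶜ) - 1} : Set ℕ) := by
    left
    refine ⟨Subtype.val ⁻¹' T, ?_, ?_⟩
    · have h1 : Subtype.val '' (Subtype.val ⁻¹' T : Set ↥(Xᶜ)) = T \ X := by
        rw [Subtype.image_preimage_coe]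
        ext v
        simp only [Set.mem_inter_iff, Set.mem_compl_iff, Set.mem_sdiff]
        tauto
      rw [← Set.ncard_image_of_injective _ Subtype.val_injective, h1,
        Set.ncard_sdiff hXT (Set.toFinite _), hTn]
    · rw [sep_iff, sep_induce]
      have h1 : X ∪ Subtype.val '' (Subtype.val ⁻¹' T : Set ↥(Xᶜ)) = T := by
        rw [Subtype.image_preimage_coe]
        ext v
        simp only [Set.mem_union, Set.mem_inter_iff, Set.mem_compl_iff]
        constructor
        · rintro (h | ⟨_, h⟩)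
          · exact hXT h
          · exact h
        · intro h
          by_cases hv : v ∈ X
          · exact Or.inl hv
          · exact Or.inr ⟨hv, h⟩
      rw [h1]
      exact hT
  have : mu (G.induce Xᶜ) = n - X.ncard := le_antisymm (Nat.sInf_le hmem)
    (le_csInf ⟨_, hmem⟩ hlow)
  omega

end Pool.Agent.W5h84.NK
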