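import Pool.Agent.W5h84.NK.Crit

set_option autoImplicit false

/-!
# A circulant graph of degree eleven on 24 vertices in which any three vertices have a common
neighbour
-/

namespace Pool.Agent.W5h84.NK

open SimpleGraph

/-- the connection set -/
def S24 : Finset (ZMod 24) := {1, 3, 4, 5, 7, 12, 17, 19, 20, 21, 23}

lemma S24_neg : ∀ a ∈ S24, -a ∈ S24 := by decide

/-- the circulant graph -/
def circ : SimpleGraph (ZMod 24) where
  Adj x y := y - x ∈ S24
  symm := ⟨by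
    intro x y h
    have := S24_neg _ h
    rwa [neg_sub] at this⟩
  loopless := ⟨by
    intro x h
    rw [sub_self] at h
    revert h
    decide⟩

lemma circ_adj {x y : ZMod 24} : circ.Adj x y ↔ y - x ∈ S24 := Iff.rfl

lemma fact_deg : (Finset.univ.filter (fun w : ZMod 24 => w ∈ S24)).card = 11 := by decide

lemma fact_non1 : (Finset.univ.filter (fun w : ZMod 24 => w ≠ 0 ∧ w ∉ S24)).card ≤ 12 := by decide

lemma fact_non2 : ∀ y : ZMod 24, y ≠ 0 →
    (Finset.univ.filter (fun w : ZMod 24 => (w ≠ 0 ∧ w ∉ S24) ∧ w ≠ y ∧ w - y ∉ S24)).card ≤ 8 := by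
  decide +kernel

lemma fact_non3 : ∀ y z : ZMod 24, y ≠ 0 → z ≠ 0 → y ≠ z →
    (Finset.univ.filter (fun w : ZMod 24 => (w ≠ 0 ∧ w ∉ S24) ∧ (w ≠ y ∧ w - y ∉ S24) ∧
      w ≠ z ∧ w - z ∉ S24)).card ≤ 6 := by
  decide +kernel

lemma fact_common : ∀ y z : ZMod 24, ∃ m : ZMod 24, m ∈ S24 ∧ m - y ∈ S24 ∧ m - z ∈ S24 := by
  decide +kernel

end Pool.Agent.W5h84.NK
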