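import Pool.Agent.W5h84.NK.Circ

set_option autoImplicit false

/-!
# Degree, connectivity and common neighbours of the circulant graph
-/

namespace Pool.Agent.W5h84.NK

open SimpleGraph

lemma circ_reg (x : ZMod 24) : (circ.neighborSet x).ncard = 11 := by
  have h : circ.neighborSet x = (fun w => w + x) '' (↑(Finset.univ.filter
      (fun w : ZMod 24 => w ∈ S24)) : Set (ZMod 24)) := by
    ext y
    constructor
    · intro hy
      refine ⟨y - x, ?_, sub_add_cancel y x⟩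
      rw [Finset.mem_coe, Finset.mem_filter]
      exact ⟨Finset.mem_univ _, hy⟩
    · rintro ⟨w, hw, rfl⟩
      rw [Finset.mem_coe, Finset.mem_filter] at hw
      show w + x - x ∈ S24
      rw [add_sub_cancel_right]
      exact hw.2
  rw [h, Set.ncard_image_of_injective _ (add_left_injective x), Set.ncard_coe_finset, fact_deg]

lemma non_bound (F' : Set (ZMod 24)) (x : ZMod 24) (n : ℕ) (E : Finset (ZMod 24))
    (hE : E.card ≤ n) (h : ∀ y ∈ F', y - x ∈ E) : F'.ncard ≤ n := by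
  have h1 : F'.ncard ≤ (↑E : Set (ZMod 24)).ncard := by
    refine Set.ncard_le_ncard_of_injOn (fun y => y - x) (fun y hy => h y hy) ?_ (Set.toFinite _)
    intro a _ b _ hab
    exact sub_left_injective hab
  rw [Set.ncard_coe_finset] at h1
  exact h1.trans hE

lemma bound1 {F F' : Set (ZMod 24)} (hd : Disjoint F F') (h : ∀ x ∈ F, ∀ y ∈ F', ¬ circ.Adj x y)
    {x : ZMod 24} (hx : x ∈ F) : F'.ncard ≤ 12 := by
  refine non_bound F' x 12 _ fact_non1 ?_
  intro y hy
  rw [Finset.mem_filter]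
  refine ⟨Finset.mem_univ _, ?_, h x hx y hy⟩
  rw [sub_ne_zero]
  rintro rfl
  exact Set.disjoint_left.1 hd hx hy

lemma bound2 {F F' : Set (ZMod 24)} (hd : Disjoint F F') (h : ∀ x ∈ F, ∀ y ∈ F', ¬ circ.Adj x y)
    {x y : ZMod 24} (hx : x ∈ F) (hy : y ∈ F) (hxy : x ≠ y) : F'.ncard ≤ 8 := by
  refine non_bound F' x 8 _ (fact_non2 (y - x) (sub_ne_zero.2 hxy.symm)) ?_
  intro w hw
  rw [Finset.mem_filter]
  refine ⟨Finset.mem_univ _, ⟨?_, h x hx w hw⟩, ?_, ?_⟩
  · rw [sub_ne_zero]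
    rintro rfl
    exact Set.disjoint_left.1 hd hx hw
  · intro he
    have : w = y := sub_left_injective he
    subst this
    exact Set.disjoint_left.1 hd hy hw
  · rw [sub_sub_sub_cancel_right]
    exact h y hy w hw

lemma bound3 {F F' : Set (ZMod 24)} (hd : Disjoint F F') (h : ∀ x ∈ F, ∀ y ∈ F', ¬ circ.Adj x y)
    {x y z : ZMod 24} (hx : x ∈ F) (hy : y ∈ F) (hz : z ∈ F) (hxy : x ≠ y) (hxz : x ≠ z)
    (hyz : y ≠ z) : F'.ncard ≤ 6 := by
  refine non_bound F' x 6 _ (fact_non3 (y - x) (z - x) (sub_ne_zero.2 hxy.symm)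
    (sub_ne_zero.2 hxz.symm) (fun he => hyz (sub_left_injective he))) ?_
  intro w hw
  rw [Finset.mem_filter]
  refine ⟨Finset.mem_univ _, ⟨?_, h x hx w hw⟩, ⟨?_, ?_⟩, ?_, ?_⟩
  · rw [sub_ne_zero]
    rintro rfl
    exact Set.disjoint_left.1 hd hx hw
  · intro he
    have : w = y := sub_left_injective he
    subst this
    exact Set.disjoint_left.1 hd hy hw
  · rw [sub_sub_sub_cancel_right]
    exact h y hy w hw
  · intro he
    have : w = z := sub_left_injective he
    subst this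
    exact Set.disjoint_left.1 hd hz hw
  · rw [sub_sub_sub_cancel_right]
    exact h z hz w hw

lemma bounds {F F' : Set (ZMod 24)} (hd : Disjoint F F') (h : ∀ x ∈ F, ∀ y ∈ F', ¬ circ.Adj x y)
    (hF : F.Nonempty) : F'.ncard ≤ 12 ∧ (F.ncard ≤ 1 ∨ F'.ncard ≤ 8) ∧
      (F.ncard ≤ 2 ∨ F'.ncard ≤ 6) := by
  refine ⟨bound1 hd h hF.some_mem, ?_, ?_⟩
  · by_cases h1 : F.ncard ≤ 1
    · exact Or.inl h1
    · right
      push Not at h1
      obtain ⟨a, b, ha, hb, hab⟩ := (Set.one_lt_ncard_iff (Set.toFinite F)).1 h1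
      exact bound2 hd h ha hb hab
  · by_cases h1 : F.ncard ≤ 2
    · exact Or.inl h1
    · right
      push Not at h1
      obtain ⟨a, b, c, ha, hb, hc, hab, hac, hbc⟩ := (Set.two_lt_ncard_iff (Set.toFinite F)).1 h1
      exact bound3 hd h ha hb hc hab hac hbc

lemma circ_conn (T : Set (ZMod 24)) (hT : Sep circ T) : 11 ≤ T.ncard := by
  obtain ⟨F, F', hF, hF', hd, hu, h⟩ := hT
  have h' : ∀ x ∈ F', ∀ y ∈ F, ¬ circ.Adj x y := fun x hx y hy hxy => h y hy x hx hxy.symm
  obtain ⟨a1, a2, a3⟩ := bounds hd h hF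
  obtain ⟨b1, b2, b3⟩ := bounds hd.symm h' hF'
  have h1 : T.ncard + Tᶜ.ncard = Nat.card (ZMod 24) := Set.ncard_add_ncard_compl T
  rw [← hu, Set.ncard_union_eq hd (Set.toFinite _) (Set.toFinite _), Nat.card_zmod] at h1
  have h3 : 0 < F.ncard := (Set.ncard_pos (Set.toFinite _)).2 hF
  have h4 : 0 < F'.ncard := (Set.ncard_pos (Set.toFinite _)).2 hF'
  omega

lemma peel (A : Set (ZMod 24)) (n : ℕ) (h : A.ncard ≤ n + 1) : ∃ x, (A \ {x}).ncard ≤ n := by
  rcases Set.eq_empty_or_nonempty A with rfl | ⟨x, hx⟩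
  · exact ⟨0, by simp⟩
  · refine ⟨x, ?_⟩
    have := Set.ncard_sdiff_singleton_of_mem hx
    omega

lemma circ_common (A : Set (ZMod 24)) (hA : A.ncard ≤ 3) : ∃ m, ∀ a ∈ A, circ.Adj m a := by
  obtain ⟨x, hx⟩ := peel A 2 hA
  obtain ⟨y, hy⟩ := peel _ 1 hx
  obtain ⟨z, hz⟩ := peel _ 0 hy
  have h0 : ((A \ {x}) \ {y}) \ {z} = ∅ := by
    rw [← Set.ncard_eq_zero (Set.toFinite _)]
    omega
  obtain ⟨m, h1, h2, h3⟩ := fact_common (y - x) (z - x)
  refine ⟨m + x, ?_⟩
  intro a ha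
  have key : ∀ b, m + x - b ∈ S24 → circ.Adj (m + x) b := by
    intro b hb
    have := S24_neg _ hb
    rw [neg_sub] at this
    exact this
  apply key
  by_cases hax : a = x
  · subst hax
    rwa [add_sub_cancel_right]
  by_cases hay : a = y
  · subst hay
    rw [show m + x - a = m - (a - x) by abel]
    exact h2
  by_cases haz : a = z
  · subst haz
    rw [show m + x - a = m - (a - x) by abel]
    exact h3
  · exfalso
    have : a ∈ ((A \ {x}) \ {y}) \ {z} := ⟨⟨⟨ha, hax⟩, hay⟩, haz⟩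
    rw [h0] at this
    exact this

/-- There is a `(24, 3)`-graph with 50 vertices and diameter three. -/
theorem exists_graph : ∃ (V : Type) (G : SimpleGraph V), Nat.card V = 50 ∧ IsNK G 24 3 ∧
    G.Connected ∧ G.diam = 3 := by
  refine ⟨(ZMod 24 × Bool) ⊕ Bool, dbl circ, ?_, ?_, ?_⟩
  · rw [Nat.card_eq_fintype_card]
    simp only [Fintype.card_sum, Fintype.card_prod, Fintype.card_bool, ZMod.card]
  · exact isNK_dbl (d := 11) circ_reg circ_conn (by rw [Nat.card_zmod]) circ_common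
  · exact diam_dbl (fun A hA => circ_common A (by omega))

end Pool.Agent.W5h84.NK
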