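import Pool.Agent.W5h84.NK.Dbl

set_option autoImplicit false
set_option linter.unusedSectionVars false

/-!
# The graph `dbl Q` is a `(2 d + 2, k)`-graph of diameter three
-/

namespace Pool.Agent.W5h84.NK

open SimpleGraph

variable {W : Type} {Q : SimpleGraph W} [Finite W] {d : ℕ}

/-- the neighbourhood of `(m, c)` -/
def cutA (Q : SimpleGraph W) (m : W) (c : Bool) : Set ((W × Bool) ⊕ Bool) :=
  insert (Sum.inr c) (insert (Sum.inl (m, !c))
    (L true (Q.neighborSet m) ∪ L false (Q.neighborSet m)))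

/-- the neighbourhood of `{(m, true), (m, false)}` -/
def cutB (Q : SimpleGraph W) (m : W) : Set ((W × Bool) ⊕ Bool) :=
  insert (Sum.inr true) (insert (Sum.inr false)
    (L true (Q.neighborSet m) ∪ L false (Q.neighborSet m)))

lemma ncard_LL (A : Set W) : (L true A ∪ L false A).ncard = 2 * A.ncard := by
  have hdis : Disjoint (L true A) (L false A) := by
    rw [Set.disjoint_left]
    rintro _ ⟨i, _, rfl⟩ hx
    exact absurd (mem_L.1 hx).1 (by simp)
  rw [Set.ncard_union_eq hdis (Set.toFinite _) (Set.toFinite _), ncard_L, ncard_L]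
  ring

lemma mem_LL {A : Set W} {i : W} {b : Bool} :
    (Sum.inl (i, b) : (W × Bool) ⊕ Bool) ∈ L true A ∪ L false A ↔ i ∈ A := by
  rw [Set.mem_union, mem_L, mem_L]
  cases b <;> simp

lemma not_mem_LL {A : Set W} {b : Bool} :
    (Sum.inr b : (W × Bool) ⊕ Bool) ∉ L true A ∪ L false A := by
  rintro (hx | hx)
  · exact not_mem_L hx
  · exact not_mem_L hx

lemma ncard_cutA (hreg : ∀ i, (Q.neighborSet i).ncard = d) (m : W) (c : Bool) :
    (cutA Q m c).ncard = 2 * d + 2 := by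
  unfold cutA
  rw [Set.ncard_insert_of_notMem _ (Set.toFinite _), Set.ncard_insert_of_notMem _ (Set.toFinite _),
    ncard_LL, hreg]
  · rw [mem_LL]
    simp
  · rintro (hx | hx)
    · exact absurd hx (by simp)
    · exact not_mem_LL hx

lemma ncard_cutB (hreg : ∀ i, (Q.neighborSet i).ncard = d) (m : W) :
    (cutB Q m).ncard = 2 * d + 2 := by
  unfold cutB
  rw [Set.ncard_insert_of_notMem _ (Set.toFinite _), Set.ncard_insert_of_notMem _ (Set.toFinite _),
    ncard_LL, hreg]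
  · exact not_mem_LL
  · rintro (hx | hx)
    · exact absurd hx (by simp)
    · exact not_mem_LL hx

/-- there is a vertex of `Q` which is neither `m` nor a neighbour of `m` -/
lemma exists_far (hreg : ∀ i, (Q.neighborSet i).ncard = d) (hs : 2 * d + 2 ≤ Nat.card W) (m : W) :
    ∃ j, j ≠ m ∧ ¬ Q.Adj m j := by
  by_contra hcon
  push Not at hcon
  have h1 : (Set.univ : Set W) ⊆ insert m (Q.neighborSet m) := by
    intro x _
    by_cases hx : x = m
    · exact Or.inl hx
    · exact Or.inr (hcon x hx)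
  have h2 := Set.ncard_le_ncard h1 (Set.toFinite _)
  have h3 := Set.ncard_insert_le m (Q.neighborSet m)
  rw [Set.ncard_univ] at h2
  rw [hreg] at h3
  have : Nonempty W := ⟨m⟩
  omega

lemma sep_cutA (hreg : ∀ i, (Q.neighborSet i).ncard = d) (hs : 2 * d + 2 ≤ Nat.card W) (m : W)
    (c : Bool) : Sep (dbl Q) (cutA Q m c) := by
  have hcc : (!c) ≠ c := by cases c <;> simp
  have hm : (Sum.inl (m, c) : (W × Bool) ⊕ Bool) ∉ cutA Q m c := by
    rintro (hx | hx | hx)
    · exact absurd hx (by simp)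
    · simp at hx
    · rw [mem_LL] at hx
      exact Q.irrefl hx
  obtain ⟨j, hj1, hj2⟩ := exists_far hreg hs m
  refine ⟨{Sum.inl (m, c)}, (insert (Sum.inl (m, c)) (cutA Q m c))ᶜ, ⟨_, rfl⟩,
    ⟨Sum.inl (j, true), ?_⟩, ?_, ?_, ?_⟩
  · rintro (hx | hx | hx | hx)
    · simp only [Sum.inl.injEq, Prod.mk.injEq] at hx
      exact hj1 hx.1
    · exact absurd hx (by simp)
    · simp only [Sum.inl.injEq, Prod.mk.injEq] at hx
      exact hj1 hx.1
    · rw [mem_LL] at hx
      exact hj2 hx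
  · rw [Set.disjoint_left]
    rintro x hx hx'
    exact hx' (Or.inl hx)
  · ext x
    simp only [Set.mem_union, Set.mem_singleton_iff, Set.mem_compl_iff, Set.mem_insert_iff, not_or]
    constructor
    · rintro (rfl | ⟨_, hx⟩)
      · exact hm
      · exact hx
    · intro hx
      by_cases hxm : x = Sum.inl (m, c)
      · exact Or.inl hxm
      · exact Or.inr ⟨hxm, hx⟩
  · rintro x hx y hy hxy
    rw [Set.mem_singleton_iff] at hx
    subst hx
    apply hy
    rcases y with ⟨i, b⟩ | b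
    · rcases adj_ll.1 hxy with ⟨h1, h2⟩ | h1
      · have : b = !c := by revert h2; cases b <;> cases c <;> simp
        subst this h1
        exact Or.inr (Or.inr (Or.inl rfl))
      · exact Or.inr (Or.inr (Or.inr (mem_LL.2 h1)))
    · have := adj_lr.1 hxy
      subst this
      exact Or.inr (Or.inl rfl)

lemma sep_cutB (hreg : ∀ i, (Q.neighborSet i).ncard = d) (hs : 2 * d + 2 ≤ Nat.card W) (m : W) :
    Sep (dbl Q) (cutB Q m) := by
  have hm : ∀ b, (Sum.inl (m, b) : (W × Bool) ⊕ Bool) ∉ cutB Q m := by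
    rintro b (hx | hx | hx)
    · exact absurd hx (by simp)
    · exact absurd hx (by simp)
    · rw [mem_LL] at hx
      exact Q.irrefl hx
  obtain ⟨j, hj1, hj2⟩ := exists_far hreg hs m
  refine ⟨{x | ∃ b, x = Sum.inl (m, b)}, ({x | ∃ b, x = Sum.inl (m, b)} ∪ cutB Q m)ᶜ,
    ⟨_, true, rfl⟩, ⟨Sum.inl (j, true), ?_⟩, ?_, ?_, ?_⟩
  · rintro (⟨b, hx⟩ | hx | hx | hx)
    · simp only [Sum.inl.injEq, Prod.mk.injEq] at hx
      exact hj1 hx.1
    · exact absurd hx (by simp)
    · exact absurd hx (by simp)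
    · rw [mem_LL] at hx
      exact hj2 hx
  · rw [Set.disjoint_left]
    rintro x hx hx'
    exact hx' (Or.inl hx)
  · ext x
    simp only [Set.mem_union, Set.mem_ofPred_eq, Set.mem_compl_iff, not_or]
    constructor
    · rintro (⟨b, rfl⟩ | ⟨_, hx⟩)
      · exact hm b
      · exact hx
    · intro hx
      by_cases hxm : ∃ b, x = Sum.inl (m, b)
      · exact Or.inl hxm
      · exact Or.inr ⟨hxm, hx⟩
  · rintro x ⟨b, rfl⟩ y hy hxy
    apply hy
    rcases y with ⟨i, b'⟩ | b'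
    · rcases adj_ll.1 hxy with ⟨h1, h2⟩ | h1
      · subst h1
        exact Or.inl ⟨b', rfl⟩
      · exact Or.inr (Or.inr (Or.inr (mem_LL.2 h1)))
    · cases b'
      · exact Or.inr (Or.inr (Or.inl rfl))
      · exact Or.inr (Or.inl rfl)

/-- Any `k` vertices of `dbl Q` are in a separating set of `2 d + 2` vertices. -/
theorem cuts_dbl {k : ℕ} (hreg : ∀ i, (Q.neighborSet i).ncard = d)
    (hs : 2 * d + 2 ≤ Nat.card W)
    (hcn : ∀ A : Set W, A.ncard ≤ k → ∃ m, ∀ a ∈ A, Q.Adj m a) (X : Set ((W × Bool) ⊕ Bool))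
    (hX : X.ncard ≤ k) :
    ∃ T : Set ((W × Bool) ⊕ Bool), X ⊆ T ∧ T.ncard = 2 * d + 2 ∧ Sep (dbl Q) T := by
  set A : Set W := {i | ∃ b, (Sum.inl (i, b) : (W × Bool) ⊕ Bool) ∈ X} with hA
  have hAX : A.ncard ≤ k := by
    let g : (W × Bool) ⊕ Bool → Option W := fun x => Sum.elim (fun y => some y.1) (fun _ => none) x
    have hsub : some '' A ⊆ g '' X := by
      rintro _ ⟨i, ⟨b, hb⟩, rfl⟩
      exact ⟨_, hb, rfl⟩
    calc A.ncard = (some '' A).ncard :=
          (Set.ncard_image_of_injective _ (Option.some_injective W)).symm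
      _ ≤ (g '' X).ncard := Set.ncard_le_ncard hsub (Set.toFinite _)
      _ ≤ X.ncard := Set.ncard_image_le (Set.toFinite _)
      _ ≤ k := hX
  obtain ⟨m, hm⟩ := hcn A hAX
  have hmem : ∀ {i : W} {b : Bool}, (Sum.inl (i, b) : (W × Bool) ⊕ Bool) ∈ X →
      (Sum.inl (i, b) : (W × Bool) ⊕ Bool) ∈
        L true (Q.neighborSet m) ∪ L false (Q.neighborSet m) := by
    intro i b h
    exact mem_LL.2 (hm i ⟨b, h⟩)
  by_cases hboth : ∀ b : Bool, (Sum.inr b : (W × Bool) ⊕ Bool) ∈ X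
  · refine ⟨cutB Q m, ?_, ncard_cutB hreg m, sep_cutB hreg hs m⟩
    rintro (⟨i, b⟩ | b) hx
    · exact Or.inr (Or.inr (hmem hx))
    · cases b
      · exact Or.inr (Or.inl rfl)
      · exact Or.inl rfl
  · push Not at hboth
    obtain ⟨c, hc⟩ := hboth
    refine ⟨cutA Q m (!c), ?_, ncard_cutA hreg m _, sep_cutA hreg hs m _⟩
    rintro (⟨i, b⟩ | b) hx
    · exact Or.inr (Or.inr (hmem hx))
    · have : b = !c := by
        have : b ≠ c := fun h => hc (h ▸ hx)
        revert this; cases b <;> cases c <;> simp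
      subst this
      exact Or.inl rfl

/-- `dbl Q` is a `(2 d + 2, k)`-graph. -/
theorem isNK_dbl {k : ℕ} (hreg : ∀ i, (Q.neighborSet i).ncard = d)
    (hconn : ∀ T : Set W, Sep Q T → d ≤ T.ncard) (hs : 2 * d + 2 ≤ Nat.card W)
    (hcn : ∀ A : Set W, A.ncard ≤ k → ∃ m, ∀ a ∈ A, Q.Adj m a) : IsNK (dbl Q) (2 * d + 2) k := by
  apply isNK_of
  · intro T hT hS
    have := conn_dbl hreg hconn hs T hS
    omega
  · exact cuts_dbl hreg hs hcn

/-- `dbl Q` is connected and has diameter three. -/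
theorem diam_dbl [Nonempty W] (hcn : ∀ A : Set W, A.ncard ≤ 2 → ∃ m, ∀ a ∈ A, Q.Adj m a) :
    (dbl Q).Connected ∧ (dbl Q).diam = 3 := by
  have hpair : ∀ i j : W, ∃ m, Q.Adj m i ∧ Q.Adj m j := by
    intro i j
    have h2 : ({i, j} : Set W).ncard ≤ 2 := by
      refine (Set.ncard_insert_le i {j}).trans ?_
      rw [Set.ncard_singleton]
    obtain ⟨m, hm⟩ := hcn {i, j} h2
    exact ⟨m, hm i (by simp), hm j (by simp)⟩
  have hwalk : ∀ x y, ∃ p : (dbl Q).Walk x y, p.length ≤ 3 := by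
    have h2 : ∀ {x z y : (W × Bool) ⊕ Bool}, (dbl Q).Adj x z → (dbl Q).Adj z y →
        ∃ p : (dbl Q).Walk x y, p.length ≤ 3 := fun h h' =>
      ⟨Walk.cons h (Walk.cons h' Walk.nil), by simp⟩
    rintro (⟨i, b⟩ | b) (⟨j, c⟩ | c)
    · obtain ⟨m, hi, hj⟩ := hpair i j
      exact h2 (z := Sum.inl (m, true)) (adj_ll.2 (Or.inr hi.symm)) (adj_ll.2 (Or.inr hj))
    · obtain ⟨m, hi, _⟩ := hpair i i
      exact h2 (z := Sum.inl (m, c)) (adj_ll.2 (Or.inr hi.symm)) (adj_lr.2 rfl)
    · obtain ⟨m, hj, _⟩ := hpair j j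
      exact h2 (z := Sum.inl (m, b)) (adj_rl.2 rfl) (adj_ll.2 (Or.inr hj))
    · obtain ⟨m⟩ := (inferInstance : Nonempty W)
      by_cases hbc : b = c
      · subst hbc
        exact ⟨Walk.nil, by simp⟩
      · have h1 : (dbl Q).Adj (Sum.inr b) (Sum.inl (m, b)) := adj_rl.2 rfl
        have h3 : (dbl Q).Adj (Sum.inl (m, b)) (Sum.inl (m, c)) := adj_ll.2 (Or.inl ⟨rfl, hbc⟩)
        have h4 : (dbl Q).Adj (Sum.inl (m, c)) (Sum.inr c) := adj_lr.2 rfl
        exact ⟨Walk.cons h1 (Walk.cons h3 (Walk.cons h4 Walk.nil)), by simp⟩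
  have hconn : (dbl Q).Connected := by
    obtain ⟨m⟩ := (inferInstance : Nonempty W)
    have : Nonempty ((W × Bool) ⊕ Bool) := ⟨Sum.inr true⟩
    exact ⟨fun x y => ⟨(hwalk x y).choose⟩⟩
  refine ⟨hconn, ?_⟩
  have hle : ∀ x y, (dbl Q).dist x y ≤ 3 := by
    intro x y
    obtain ⟨p, hp⟩ := hwalk x y
    exact (dist_le p).trans hp
  have hge : 3 ≤ (dbl Q).dist (Sum.inr true) (Sum.inr false) := by
    obtain ⟨p, hp⟩ := (hconn.preconnected (Sum.inr true) (Sum.inr false)).exists_walk_length_eq_dist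
    rw [← hp]
    match p with
    | Walk.cons h Walk.nil => exact absurd h (by intro h; exact h)
    | @Walk.cons _ _ _ z _ h (Walk.cons h' Walk.nil) =>
      exfalso
      rcases z with ⟨i, b⟩ | b
      · have h1 := adj_rl.1 h
        have h3 := adj_lr.1 h'
        rw [h1] at h3
        exact absurd h3 (by simp)
      · exact h
    | Walk.cons _ (Walk.cons _ (Walk.cons _ _)) => simp only [Walk.length_cons]; omega
  apply le_antisymm
  · obtain ⟨x, y, hxy⟩ := (dbl Q).exists_dist_eq_diam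
    rw [← hxy]
    exact hle x y
  · refine hge.trans (dist_le_diam ?_)
    exact connected_iff_ediam_ne_top.1 hconn

end Pool.Agent.W5h84.NK
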