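import Pool.Agent.W5h84.NK.Basic

set_option autoImplicit false
set_option linter.unusedSectionVars false

/-!
# The graph `Q[K_2]` with two further vertices
-/

namespace Pool.Agent.W5h84.NK

open SimpleGraph

variable {W : Type}

/-- The adjacency of `dbl Q`. -/
def dblAdj (Q : SimpleGraph W) : (W × Bool) ⊕ Bool → (W × Bool) ⊕ Bool → Prop
  | Sum.inl (i, b), Sum.inl (j, c) => (i = j ∧ b ≠ c) ∨ Q.Adj i j
  | Sum.inl (_, b), Sum.inr c => b = c
  | Sum.inr c, Sum.inl (_, b) => b = c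
  | Sum.inr _, Sum.inr _ => False

/-- Every vertex `i` of `Q` is replaced by two adjacent vertices `(i, true)`, `(i, false)`; one
further vertex `true` is joined to all the `(i, true)`, and one further vertex `false` to all the
`(i, false)`. -/
def dbl (Q : SimpleGraph W) : SimpleGraph ((W × Bool) ⊕ Bool) where
  Adj := dblAdj Q
  symm := ⟨by
    rintro (⟨i, b⟩ | b) (⟨j, c⟩ | c) h
    · rcases h with ⟨h1, h2⟩ | h
      · exact Or.inl ⟨h1.symm, h2.symm⟩
      · exact Or.inr h.symm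
    · exact h
    · exact h
    · exact h⟩
  loopless := ⟨by
    rintro (⟨i, b⟩ | b) h
    · rcases h with ⟨_, h2⟩ | h
      · exact h2 rfl
      · exact Q.irrefl h
    · exact h⟩

variable {Q : SimpleGraph W}

lemma adj_ll {i j : W} {b c : Bool} :
    (dbl Q).Adj (Sum.inl (i, b)) (Sum.inl (j, c)) ↔ (i = j ∧ b ≠ c) ∨ Q.Adj i j := Iff.rfl

lemma adj_lr {i : W} {b c : Bool} : (dbl Q).Adj (Sum.inl (i, b)) (Sum.inr c) ↔ b = c := Iff.rfl

lemma adj_rl {i : W} {b c : Bool} : (dbl Q).Adj (Sum.inr c) (Sum.inl (i, b)) ↔ b = c := Iff.rfl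

/-- the copies with label `c` of the elements of `A` -/
def L (c : Bool) (A : Set W) : Set ((W × Bool) ⊕ Bool) := (fun i => Sum.inl (i, c)) '' A

lemma L_inj (c : Bool) : Function.Injective (fun i : W => (Sum.inl (i, c) : (W × Bool) ⊕ Bool)) := by
  intro i j h
  simpa using h

lemma mem_L {c b : Bool} {A : Set W} {i : W} :
    (Sum.inl (i, b) : (W × Bool) ⊕ Bool) ∈ L c A ↔ b = c ∧ i ∈ A := by
  constructor
  · rintro ⟨j, hj, h⟩
    simp only [Sum.inl.injEq, Prod.mk.injEq] at h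
    exact ⟨h.2.symm, h.1 ▸ hj⟩
  · rintro ⟨rfl, h⟩
    exact ⟨i, h, rfl⟩

lemma not_mem_L {c b : Bool} {A : Set W} : (Sum.inr b : (W × Bool) ⊕ Bool) ∉ L c A := by
  rintro ⟨j, _, h⟩
  exact absurd h (by simp)

lemma ncard_L (c : Bool) (A : Set W) : (L c A).ncard = A.ncard :=
  Set.ncard_image_of_injective _ (L_inj c)

/-- the outer boundary -/
def bd (Q : SimpleGraph W) (I : Set W) : Set W := {j | j ∉ I ∧ ∃ i ∈ I, Q.Adj i j}

variable [Finite W] {d : ℕ}

lemma case_one {T F F' : Set ((W × Bool) ⊕ Bool)} (hu : F ∪ F' = Tᶜ)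
    (h : ∀ x ∈ F, ∀ y ∈ F', ¬ (dbl Q).Adj x y) {c : Bool} (h1 : Sum.inr c ∈ F)
    (h2 : Sum.inr (!c) ∈ F') : Nat.card W ≤ T.ncard := by
  let g : (W × Bool) ⊕ Bool → Option W := fun x => Sum.elim (fun y => some y.1) (fun _ => none) x
  have hsub : some '' (Set.univ : Set W) ⊆ g '' T := by
    rintro _ ⟨i, _, rfl⟩
    by_contra hn
    have a1 : (Sum.inl (i, c) : (W × Bool) ⊕ Bool) ∉ T := fun ht => hn ⟨_, ht, rfl⟩
    have a2 : (Sum.inl (i, !c) : (W × Bool) ⊕ Bool) ∉ T := fun ht => hn ⟨_, ht, rfl⟩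
    have b1 : (Sum.inl (i, c) : (W × Bool) ⊕ Bool) ∈ F ∪ F' := by rw [hu]; exact a1
    have b2 : (Sum.inl (i, !c) : (W × Bool) ⊕ Bool) ∈ F ∪ F' := by rw [hu]; exact a2
    have c1 : (Sum.inl (i, c) : (W × Bool) ⊕ Bool) ∈ F := by
      rcases b1 with b1 | b1
      · exact b1
      · exact absurd (adj_rl.2 rfl) (h _ h1 _ b1)
    have c2 : (Sum.inl (i, !c) : (W × Bool) ⊕ Bool) ∈ F' := by
      rcases b2 with b2 | b2
      · exact absurd (adj_lr.2 rfl) (h _ b2 _ h2)
      · exact b2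
    refine h _ c1 _ c2 (adj_ll.2 (Or.inl ⟨rfl, ?_⟩))
    cases c <;> simp
  calc Nat.card W = (Set.univ : Set W).ncard := (Set.ncard_univ W).symm
    _ = (some '' (Set.univ : Set W)).ncard :=
        (Set.ncard_image_of_injective _ (Option.some_injective W)).symm
    _ ≤ (g '' T).ncard := Set.ncard_le_ncard hsub (Set.toFinite _)
    _ ≤ T.ncard := Set.ncard_image_le (Set.toFinite _)

lemma case_two {F F' : Set ((W × Bool) ⊕ Bool)} (hF' : F'.Nonempty) (hd : Disjoint F F')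
    (h : ∀ x ∈ F, ∀ y ∈ F', ¬ (dbl Q).Adj x y) {c : Bool} (h1 : Sum.inr c ∈ F)
    (h2 : Sum.inr (!c) ∈ F) : False := by
  obtain ⟨y, hy⟩ := hF'
  have h12 : ∀ b : Bool, (Sum.inr b : (W × Bool) ⊕ Bool) ∈ F := by
    intro b
    by_cases hb : b = c
    · exact hb ▸ h1
    · have : b = !c := by revert hb; cases b <;> cases c <;> simp
      exact this ▸ h2
  rcases y with ⟨i, b⟩ | b
  · exact h _ (h12 b) _ hy (adj_rl.2 rfl)
  · exact Set.disjoint_left.1 hd (h12 b) hy

lemma bd_ge (hconn : ∀ T : Set W, Sep Q T → d ≤ T.ncard) {I : Set W} (hI : I.Nonempty)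
    (hI' : (I ∪ bd Q I)ᶜ.Nonempty) : d ≤ (bd Q I).ncard := by
  apply hconn
  refine ⟨I, (I ∪ bd Q I)ᶜ, hI, hI', ?_, ?_, ?_⟩
  · rw [Set.disjoint_left]
    intro x hx hx'
    exact hx' (Or.inl hx)
  · ext x
    simp only [Set.mem_union, Set.mem_compl_iff, not_or]
    constructor
    · rintro (hx | ⟨_, hx⟩)
      · exact fun hb => hb.1 hx
      · exact hx
    · intro hx
      by_cases hxI : x ∈ I
      · exact Or.inl hxI
      · exact Or.inr ⟨hxI, hx⟩
  · intro x hx y hy hxy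
    exact hy (Or.inr ⟨fun hyI => hy (Or.inl hyI), x, hx, hxy⟩)

lemma closed_ge (hreg : ∀ i, (Q.neighborSet i).ncard = d) {I : Set W} (hI : I.Nonempty) :
    d + 1 ≤ (I ∪ bd Q I).ncard := by
  obtain ⟨i, hi⟩ := hI
  have h1 : insert i (Q.neighborSet i) ⊆ I ∪ bd Q I := by
    intro x hx
    by_cases hxI : x ∈ I
    · exact Or.inl hxI
    · rcases hx with rfl | hx
      · exact absurd hi hxI
      · exact Or.inr ⟨hxI, i, hi, hx⟩
  have h0 : i ∉ Q.neighborSet i := by simp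
  calc d + 1 = (insert i (Q.neighborSet i)).ncard := by
        rw [Set.ncard_insert_of_notMem h0 (Set.toFinite _), hreg]
    _ ≤ _ := Set.ncard_le_ncard h1 (Set.toFinite _)

lemma case_three (hreg : ∀ i, (Q.neighborSet i).ncard = d)
    (hconn : ∀ T : Set W, Sep Q T → d ≤ T.ncard) (hs : 2 * d + 2 ≤ Nat.card W)
    {T F F' : Set ((W × Bool) ⊕ Bool)} (hF' : F'.Nonempty) (hd : Disjoint F F')
    (hu : F ∪ F' = Tᶜ) (h : ∀ x ∈ F, ∀ y ∈ F', ¬ (dbl Q).Adj x y) {c : Bool}
    (h1 : Sum.inr c ∈ F) (h2 : Sum.inr (!c) ∈ T) : 2 * d + 2 ≤ T.ncard := by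
  have hcases : ∀ x, x ∉ F → x ∉ F' → x ∈ T := by
    intro x hx hx'
    by_contra hT
    have : x ∈ F ∪ F' := by rw [hu]; exact hT
    rcases this with h | h
    · exact hx h
    · exact hx' h
  set I : Set W := {i | (Sum.inl (i, !c) : (W × Bool) ⊕ Bool) ∈ F'} with hIdef
  have hcF' : ∀ i, (Sum.inl (i, c) : (W × Bool) ⊕ Bool) ∉ F' := fun i hi =>
    h _ h1 _ hi (adj_rl.2 rfl)
  have hTF : ∀ x, x ∈ T → x ∉ F ∧ x ∉ F' := by
    intro x hx
    constructor
    · intro hxF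
      have : x ∈ Tᶜ := hu ▸ Or.inl hxF
      exact this hx
    · intro hxF
      have : x ∈ Tᶜ := hu ▸ Or.inr hxF
      exact this hx
  have hI : I.Nonempty := by
    obtain ⟨y, hy⟩ := hF'
    rcases y with ⟨i, b⟩ | b
    · by_cases hb : b = c
      · subst hb
        exact absurd hy (hcF' i)
      · have : b = !c := by revert hb; cases b <;> cases c <;> simp
        subst this
        exact ⟨i, hy⟩
    · by_cases hb : b = c
      · subst hb
        exact absurd hy (Set.disjoint_left.1 hd h1)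
      · have : b = !c := by revert hb; cases b <;> cases c <;> simp
        subst this
        exact absurd hy (hTF _ h2).2
  have hcc : (!c) ≠ c := by cases c <;> simp
  have hsub1 : L c (I ∪ bd Q I) ⊆ T := by
    rintro _ ⟨j, hj, rfl⟩
    apply hcases _ _ (hcF' j)
    intro hjF
    rcases hj with hj | ⟨_, i, hi, hij⟩
    · exact h _ hjF _ hj (adj_ll.2 (Or.inl ⟨rfl, hcc.symm⟩))
    · exact h _ hjF _ hi (adj_ll.2 (Or.inr hij.symm))
  have hsub2 : L (!c) (bd Q I) ⊆ T := by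
    rintro _ ⟨j, ⟨hjI, i, hi, hij⟩, rfl⟩
    refine hcases _ ?_ hjI
    intro hjF
    exact h _ hjF _ hi (adj_ll.2 (Or.inr hij.symm))
  by_cases hall : (I ∪ bd Q I)ᶜ.Nonempty
  · have e1 := bd_ge hconn hI hall
    have e2 := closed_ge hreg hI
    have hsub : insert (Sum.inr (!c)) (L c (I ∪ bd Q I) ∪ L (!c) (bd Q I)) ⊆ T := by
      rintro x (rfl | hx | hx)
      · exact h2
      · exact hsub1 hx
      · exact hsub2 hx
    have hdis : Disjoint (L c (I ∪ bd Q I)) (L (!c) (bd Q I)) := by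
      rw [Set.disjoint_left]
      rintro _ ⟨i, _, rfl⟩ hx
      exact hcc (mem_L.1 hx).1.symm
    have e3 : (insert (Sum.inr (!c)) (L c (I ∪ bd Q I) ∪ L (!c) (bd Q I))).ncard =
        (I ∪ bd Q I).ncard + (bd Q I).ncard + 1 := by
      rw [Set.ncard_insert_of_notMem _ (Set.toFinite _), Set.ncard_union_eq hdis (Set.toFinite _)
        (Set.toFinite _), ncard_L, ncard_L]
      rintro (hx | hx)
      · exact not_mem_L hx
      · exact not_mem_L hx
    have e4 := Set.ncard_le_ncard hsub (Set.toFinite T)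
    omega
  · rw [Set.not_nonempty_iff_eq_empty, Set.compl_empty_iff] at hall
    have e4 := Set.ncard_le_ncard hsub1 (Set.toFinite T)
    rw [ncard_L, hall, Set.ncard_univ] at e4
    omega

lemma case_four (hconn : ∀ T : Set W, Sep Q T → d ≤ T.ncard)
    {T F F' : Set ((W × Bool) ⊕ Bool)} (hF : F.Nonempty) (hF' : F'.Nonempty)
    (hd : Disjoint F F') (hu : F ∪ F' = Tᶜ) (h : ∀ x ∈ F, ∀ y ∈ F', ¬ (dbl Q).Adj x y)
    (h1 : ∀ c : Bool, (Sum.inr c : (W × Bool) ⊕ Bool) ∈ T) : 2 * d + 2 ≤ T.ncard := by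
  have hTF : ∀ x, x ∈ T → x ∉ F ∧ x ∉ F' := by
    intro x hx
    constructor
    · intro hxF
      have : x ∈ Tᶜ := hu ▸ Or.inl hxF
      exact this hx
    · intro hxF
      have : x ∈ Tᶜ := hu ▸ Or.inr hxF
      exact this hx
  set I : Set W := {i | ∃ b, (Sum.inl (i, b) : (W × Bool) ⊕ Bool) ∈ F} with hIdef
  set I' : Set W := {i | ∃ b, (Sum.inl (i, b) : (W × Bool) ⊕ Bool) ∈ F'} with hI'def
  have hII' : ∀ x ∈ I, ∀ y ∈ I', x ≠ y ∧ ¬ Q.Adj x y := by
    rintro x ⟨b, hb⟩ y ⟨c, hc⟩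
    constructor
    · rintro rfl
      by_cases hbc : b = c
      · subst hbc
        exact Set.disjoint_left.1 hd hb hc
      · exact h _ hb _ hc (adj_ll.2 (Or.inl ⟨rfl, hbc⟩))
    · intro hxy
      exact h _ hb _ hc (adj_ll.2 (Or.inr hxy))
  have hne : ∀ {E : Set ((W × Bool) ⊕ Bool)}, E.Nonempty → (∀ x ∈ T, x ∉ E) →
      ∃ i b, (Sum.inl (i, b) : (W × Bool) ⊕ Bool) ∈ E := by
    rintro E ⟨y, hy⟩ hE
    rcases y with ⟨i, b⟩ | b
    · exact ⟨i, b, hy⟩
    · exact absurd hy (hE _ (h1 b))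
  have hI : I.Nonempty := by
    obtain ⟨i, b, hib⟩ := hne hF (fun x hx => (hTF x hx).1)
    exact ⟨i, b, hib⟩
  have hI' : I'.Nonempty := by
    obtain ⟨i, b, hib⟩ := hne hF' (fun x hx => (hTF x hx).2)
    exact ⟨i, b, hib⟩
  have hsep : Sep Q (I ∪ I')ᶜ := by
    refine ⟨I, I', hI, hI', ?_, (compl_compl _).symm, fun x hx y hy => (hII' x hx y hy).2⟩
    rw [Set.disjoint_left]
    intro x hx hx'
    exact (hII' x hx x hx').1 rfl
  have e1 := hconn _ hsep
  have hsub0 : ∀ b : Bool, L b (I ∪ I')ᶜ ⊆ T := by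
    rintro b _ ⟨j, hj, rfl⟩
    by_contra hT
    have : (Sum.inl (j, b) : (W × Bool) ⊕ Bool) ∈ F ∪ F' := by rw [hu]; exact hT
    rcases this with h' | h'
    · exact hj (Or.inl ⟨b, h'⟩)
    · exact hj (Or.inr ⟨b, h'⟩)
  have hsub : insert (Sum.inr true) (insert (Sum.inr false)
      (L true (I ∪ I')ᶜ ∪ L false (I ∪ I')ᶜ)) ⊆ T := by
    rintro x (rfl | rfl | hx | hx)
    · exact h1 _
    · exact h1 _
    · exact hsub0 _ hx
    · exact hsub0 _ hx
  have hdis : Disjoint (L true (I ∪ I')ᶜ) (L false (I ∪ I')ᶜ) := by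
    rw [Set.disjoint_left]
    rintro _ ⟨i, _, rfl⟩ hx
    exact absurd (mem_L.1 hx).1 (by simp)
  have e3 : (insert (Sum.inr true) (insert (Sum.inr false)
      (L true (I ∪ I')ᶜ ∪ L false (I ∪ I')ᶜ))).ncard = 2 * ((I ∪ I')ᶜ).ncard + 2 := by
    rw [Set.ncard_insert_of_notMem _ (Set.toFinite _), Set.ncard_insert_of_notMem _
      (Set.toFinite _), Set.ncard_union_eq hdis (Set.toFinite _) (Set.toFinite _), ncard_L, ncard_L]
    · ring
    · rintro (hx | hx)
      · exact not_mem_L hx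
      · exact not_mem_L hx
    · rintro (hx | hx | hx)
      · exact absurd hx (by simp)
      · exact not_mem_L hx
      · exact not_mem_L hx
  have e4 := Set.ncard_le_ncard hsub (Set.toFinite T)
  omega

/-- `dbl Q` is `(2 d + 2)`-connected. -/
theorem conn_dbl (hreg : ∀ i, (Q.neighborSet i).ncard = d)
    (hconn : ∀ T : Set W, Sep Q T → d ≤ T.ncard) (hs : 2 * d + 2 ≤ Nat.card W)
    (T : Set ((W × Bool) ⊕ Bool)) (hT : Sep (dbl Q) T) : 2 * d + 2 ≤ T.ncard := by
  obtain ⟨F, F', hF, hF', hd, hu, h⟩ := hT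
  have h' : ∀ x ∈ F', ∀ y ∈ F, ¬ (dbl Q).Adj x y := fun x hx y hy hxy => h y hy x hx hxy.symm
  have hu' : F' ∪ F = Tᶜ := by rw [Set.union_comm]; exact hu
  have tri : ∀ x, x ∈ T ∨ x ∈ F ∨ x ∈ F' := by
    intro x
    by_cases hx : x ∈ T
    · exact Or.inl hx
    · right
      have : x ∈ F ∪ F' := by rw [hu]; exact hx
      exact this
  rcases tri (Sum.inr true) with a | a | a <;> rcases tri (Sum.inr false) with b | b | b
  · refine case_four hconn hF hF' hd hu h ?_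
    rintro (_ | _)
    · exact b
    · exact a
  · exact case_three hreg hconn hs hF' hd hu h (c := false) b a
  · exact case_three hreg hconn hs hF hd.symm hu' h' (c := false) b a
  · exact case_three hreg hconn hs hF' hd hu h (c := true) a b
  · exact (case_two hF' hd h (c := true) a b).elim
  · exact hs.trans (case_one hu h (c := true) a b)
  · exact case_three hreg hconn hs hF hd.symm hu' h' (c := true) a b
  · exact hs.trans (case_one hu' h' (c := true) a b)
  · exact (case_two hF hd.symm h' (c := true) a b).elim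

end Pool.Agent.W5h84.NK
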