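import Pool.Agent.W5h84.NK.Ext

set_option autoImplicit false
set_option linter.unusedSectionVars false

/-!
# The graph `dbl Q` for a general critically connected graph `Q`
-/

namespace Pool.Agent.W5h84.NK

open SimpleGraph

variable {W : Type} {Q : SimpleGraph W} [Finite W] {d : ℕ}

lemma case_three' (hconn : ∀ T : Set W, Sep Q T → d ≤ T.ncard) (hs : 2 * d + 2 ≤ Nat.card W)
    {T F F' : Set ((W × Bool) ⊕ Bool)} (hF' : F'.Nonempty) (hd : Disjoint F F')
    (hu : F ∪ F' = Tᶜ) (h : ∀ x ∈ F, ∀ y ∈ F', ¬ (dbl Q).Adj x y) {c : Bool}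
    (h1 : Sum.inr c ∈ F) (h2 : Sum.inr (!c) ∈ T) : 2 * d + 2 ≤ T.ncard := by
  have hcases : ∀ x, x ∉ F → x ∉ F' → x ∈ T := by
    intro x hx hx'
    by_contra hT
    have : x ∈ F ∪ F' := by rw [hu]; exact hT
    rcases this with h | h
    · exact hx h
    · exact hx' h
  set I : Set W := {i | (Sum.inl (i, !c) : (W × Bool) ⊕ Bool) ∈ F'} with hIdef
  have hcF' : ∀ i, (Sum.inl (i, c) : (W × Bool) ⊕ Bool) ∉ F' := fun i hi =>
    h _ h1 _ hi (adj_rl.2 rfl)
  have hTF : ∀ x, x ∈ T → x ∉ F ∧ x ∉ F' := by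
    intro x hx
    constructor
    · intro hxF
      have : x ∈ Tᶜ := hu ▸ Or.inl hxF
      exact this hx
    · intro hxF
      have : x ∈ Tᶜ := hu ▸ Or.inr hxF
      exact this hx
  have hI : I.Nonempty := by
    obtain ⟨y, hy⟩ := hF'
    rcases y with ⟨i, b⟩ | b
    · by_cases hb : b = c
      · subst hb
        exact absurd hy (hcF' i)
      · have : b = !c := by revert hb; cases b <;> cases c <;> simp
        subst this
        exact ⟨i, hy⟩
    · by_cases hb : b = c
      · subst hb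
        exact absurd hy (Set.disjoint_left.1 hd h1)
      · have : b = !c := by revert hb; cases b <;> cases c <;> simp
        subst this
        exact absurd hy (hTF _ h2).2
  have hcc : (!c) ≠ c := by cases c <;> simp
  have hsub1 : L c (I ∪ bd Q I) ⊆ T := by
    rintro _ ⟨j, hj, rfl⟩
    apply hcases _ _ (hcF' j)
    intro hjF
    rcases hj with hj | ⟨_, i, hi, hij⟩
    · exact h _ hjF _ hj (adj_ll.2 (Or.inl ⟨rfl, hcc.symm⟩))
    · exact h _ hjF _ hi (adj_ll.2 (Or.inr hij.symm))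
  have hsub2 : L (!c) (bd Q I) ⊆ T := by
    rintro _ ⟨j, ⟨hjI, i, hi, hij⟩, rfl⟩
    refine hcases _ ?_ hjI
    intro hjF
    exact h _ hjF _ hi (adj_ll.2 (Or.inr hij.symm))
  by_cases hall : (I ∪ bd Q I)ᶜ.Nonempty
  · have e1 := bd_ge hconn hI hall
    have e2 : d + 1 ≤ (I ∪ bd Q I).ncard := by
      have hdI : Disjoint I (bd Q I) := by
        rw [Set.disjoint_left]
        intro x hx hx'
        exact hx'.1 hx
      rw [Set.ncard_union_eq hdI (Set.toFinite _) (Set.toFinite _)]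
      have := (Set.ncard_pos (Set.toFinite I)).2 hI
      omega
    have hsub : insert (Sum.inr (!c)) (L c (I ∪ bd Q I) ∪ L (!c) (bd Q I)) ⊆ T := by
      rintro x (rfl | hx | hx)
      · exact h2
      · exact hsub1 hx
      · exact hsub2 hx
    have hdis : Disjoint (L c (I ∪ bd Q I)) (L (!c) (bd Q I)) := by
      rw [Set.disjoint_left]
      rintro _ ⟨i, _, rfl⟩ hx
      exact hcc (mem_L.1 hx).1.symm
    have e3 : (insert (Sum.inr (!c)) (L c (I ∪ bd Q I) ∪ L (!c) (bd Q I))).ncard =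
        (I ∪ bd Q I).ncard + (bd Q I).ncard + 1 := by
      rw [Set.ncard_insert_of_notMem _ (Set.toFinite _), Set.ncard_union_eq hdis (Set.toFinite _)
        (Set.toFinite _), ncard_L, ncard_L]
      rintro (hx | hx)
      · exact not_mem_L hx
      · exact not_mem_L hx
    have e4 := Set.ncard_le_ncard hsub (Set.toFinite T)
    omega
  · rw [Set.not_nonempty_iff_eq_empty, Set.compl_empty_iff] at hall
    have e4 := Set.ncard_le_ncard hsub1 (Set.toFinite T)
    rw [ncard_L, hall, Set.ncard_univ] at e4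
    omega

/-- `dbl Q` is `(2 d + 2)`-connected if `Q` is `d`-connected with at least `2 d + 2` vertices. -/
theorem conn_dbl' (hconn : ∀ T : Set W, Sep Q T → d ≤ T.ncard) (hs : 2 * d + 2 ≤ Nat.card W)
    (T : Set ((W × Bool) ⊕ Bool)) (hT : Sep (dbl Q) T) : 2 * d + 2 ≤ T.ncard := by
  obtain ⟨F, F', hF, hF', hd, hu, h⟩ := hT
  have h' : ∀ x ∈ F', ∀ y ∈ F, ¬ (dbl Q).Adj x y := fun x hx y hy hxy => h y hy x hx hxy.symm
  have hu' : F' ∪ F = Tᶜ := by rw [Set.union_comm]; exact hu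
  have tri : ∀ x, x ∈ T ∨ x ∈ F ∨ x ∈ F' := by
    intro x
    by_cases hx : x ∈ T
    · exact Or.inl hx
    · right
      have : x ∈ F ∪ F' := by rw [hu]; exact hx
      exact this
  rcases tri (Sum.inr true) with a | a | a <;> rcases tri (Sum.inr false) with b | b | b
  · refine case_four hconn hF hF' hd hu h ?_
    rintro (_ | _)
    · exact b
    · exact a
  · exact case_three' hconn hs hF' hd hu h (c := false) b a
  · exact case_three' hconn hs hF hd.symm hu' h' (c := false) b a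
  · exact case_three' hconn hs hF' hd hu h (c := true) a b
  · exact (case_two hF' hd h (c := true) a b).elim
  · exact hs.trans (case_one hu h (c := true) a b)
  · exact case_three' hconn hs hF hd.symm hu' h' (c := true) a b
  · exact hs.trans (case_one hu' h' (c := true) a b)
  · exact (case_two hF hd.symm h' (c := true) a b).elim


/-- Any `k` vertices of `dbl Q` are in a separating set of `2 d + 2` vertices. -/
theorem cuts_dbl' {k : ℕ}
    (hk : ∀ A : Set W, A.ncard ≤ k → ∃ T : Set W, A ⊆ T ∧ T.ncard = d ∧ Sep Q T)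
    (X : Set ((W × Bool) ⊕ Bool)) (hX : X.ncard ≤ k) :
    ∃ T : Set ((W × Bool) ⊕ Bool), X ⊆ T ∧ T.ncard = 2 * d + 2 ∧ Sep (dbl Q) T := by
  set A : Set W := {i | ∃ b, (Sum.inl (i, b) : (W × Bool) ⊕ Bool) ∈ X} with hA
  have hAX : A.ncard ≤ k := by
    let g : (W × Bool) ⊕ Bool → Option W := fun x => Sum.elim (fun y => some y.1) (fun _ => none) x
    have hsub : some '' A ⊆ g '' X := by
      rintro _ ⟨i, ⟨b, hb⟩, rfl⟩
      exact ⟨_, hb, rfl⟩
    calc A.ncard = (some '' A).ncard :=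
          (Set.ncard_image_of_injective _ (Option.some_injective W)).symm
      _ ≤ (g '' X).ncard := Set.ncard_le_ncard hsub (Set.toFinite _)
      _ ≤ X.ncard := Set.ncard_image_le (Set.toFinite _)
      _ ≤ k := hX
  obtain ⟨T, hAT, hTd, F, F', ⟨x, hx⟩, ⟨y, hy⟩, hd, hu, h⟩ := hk A hAX
  refine ⟨insert (Sum.inr true) (insert (Sum.inr false) (L true T ∪ L false T)), ?_, ?_,
    L true F ∪ L false F, L true F' ∪ L false F', ⟨Sum.inl (x, true), mem_LL.2 hx⟩,
    ⟨Sum.inl (y, true), mem_LL.2 hy⟩, ?_, ?_, ?_⟩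
  · rintro (⟨i, b⟩ | b) hi
    · exact Or.inr (Or.inr (mem_LL.2 (hAT ⟨b, hi⟩)))
    · cases b
      · exact Or.inr (Or.inl rfl)
      · exact Or.inl rfl
  · rw [Set.ncard_insert_of_notMem _ (Set.toFinite _), Set.ncard_insert_of_notMem _
      (Set.toFinite _), ncard_LL, hTd]
    · exact not_mem_LL
    · rintro (h' | h')
      · exact absurd h' (by simp)
      · exact not_mem_LL h'
  · rw [Set.disjoint_left]
    rintro (⟨i, b⟩ | b) hi hi'
    · rw [mem_LL] at hi hi'
      exact Set.disjoint_left.1 hd hi hi'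
    · exact not_mem_LL hi
  · ext z
    rcases z with ⟨i, b⟩ | b
    · rw [Set.mem_union, mem_LL, mem_LL, Set.mem_compl_iff, Set.mem_insert_iff, Set.mem_insert_iff,
        mem_LL, ← Set.mem_union, hu]
      simp
    · constructor
      · rintro (h' | h')
        · exact absurd h' not_mem_LL
        · exact absurd h' not_mem_LL
      · intro h'
        exfalso
        apply h'
        cases b
        · exact Or.inr (Or.inl rfl)
        · exact Or.inl rfl
  · rintro (⟨i, b⟩ | b) hi (⟨j, c⟩ | c) hj hij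
    · rw [mem_LL] at hi hj
      rcases adj_ll.1 hij with ⟨h1, _⟩ | h1
      · exact Set.disjoint_left.1 hd hi (h1 ▸ hj)
      · exact h _ hi _ hj h1
    · exact not_mem_LL hj
    · exact not_mem_LL hi
    · exact not_mem_LL hi

/-- The diameter of `ext (dbl Q) U t`, where `U` is the set of the vertices `(i, b)`. -/
theorem diam_ext [Nonempty W] (hpair : ∀ i j : W, ∃ m, Q.Adj m i ∧ Q.Adj m j) (t : ℕ) :
    (ext (dbl Q) (Set.range Sum.inl) t).Connected ∧
      (ext (dbl Q) (Set.range Sum.inl) t).diam = 3 := by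
  set U : Set ((W × Bool) ⊕ Bool) := Set.range Sum.inl with hU
  have h2 : ∀ {x z y : ((W × Bool) ⊕ Bool) ⊕ Fin t},
      (ext (dbl Q) U t).Adj x z → (ext (dbl Q) U t).Adj z y →
      ∃ p : (ext (dbl Q) U t).Walk x y, p.length ≤ 3 := fun h h' =>
    ⟨Walk.cons h (Walk.cons h' Walk.nil), by simp⟩
  obtain ⟨i0⟩ := (inferInstance : Nonempty W)
  refine diam_three ?_ (u := Sum.inl (Sum.inr true)) (v := Sum.inl (Sum.inr false)) (by simp)
    (fun h => h) ?_
  · rintro ((⟨i, b⟩ | b) | z) ((⟨j, c⟩ | c) | z')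
    · obtain ⟨m, hi, hj⟩ := hpair i j
      exact h2 (z := Sum.inl (Sum.inl (m, true))) (ext_ll.2 (adj_ll.2 (Or.inr hi.symm)))
        (ext_ll.2 (adj_ll.2 (Or.inr hj)))
    · obtain ⟨m, hi, _⟩ := hpair i i
      exact h2 (z := Sum.inl (Sum.inl (m, c))) (ext_ll.2 (adj_ll.2 (Or.inr hi.symm)))
        (ext_ll.2 (adj_lr.2 rfl))
    · exact ⟨Walk.cons (ext_lr.2 ⟨_, rfl⟩) Walk.nil, by simp⟩
    · obtain ⟨m, hj, _⟩ := hpair j j
      exact h2 (z := Sum.inl (Sum.inl (m, b))) (ext_ll.2 (adj_rl.2 rfl))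
        (ext_ll.2 (adj_ll.2 (Or.inr hj)))
    · by_cases hbc : b = c
      · subst hbc
        exact ⟨Walk.nil, by simp⟩
      · have h1 : (dbl Q).Adj (Sum.inr b) (Sum.inl (i0, b)) := adj_rl.2 rfl
        have h3 : (dbl Q).Adj (Sum.inl (i0, b)) (Sum.inl (i0, c)) :=
          adj_ll.2 (Or.inl ⟨rfl, hbc⟩)
        have h4 : (dbl Q).Adj (Sum.inl (i0, c)) (Sum.inr c) := adj_lr.2 rfl
        exact ⟨Walk.cons (ext_ll.2 h1) (Walk.cons (ext_ll.2 h3) (Walk.cons (ext_ll.2 h4)
          Walk.nil)), by simp⟩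
    · exact h2 (z := Sum.inl (Sum.inl (i0, b))) (ext_ll.2 (adj_rl.2 rfl)) (ext_lr.2 ⟨_, rfl⟩)
    · exact ⟨Walk.cons (ext_rl.2 ⟨_, rfl⟩) Walk.nil, by simp⟩
    · exact h2 (z := Sum.inl (Sum.inl (i0, c))) (ext_rl.2 ⟨_, rfl⟩) (ext_ll.2 (adj_lr.2 rfl))
    · exact h2 (z := Sum.inl (Sum.inl (i0, true))) (ext_rl.2 ⟨_, rfl⟩) (ext_lr.2 ⟨_, rfl⟩)
  · rintro ((⟨i, b⟩ | b) | z) ⟨h1, h3⟩
    · have e1 := adj_rl.1 (ext_ll.1 h1)
      have e3 := adj_lr.1 (ext_ll.1 h3)
      rw [e1] at e3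
      exact absurd e3 (by simp)
    · exact h1
    · obtain ⟨y, hy⟩ := ext_lr.1 h1
      exact absurd hy (by simp)

/-- From a critically connected graph with sufficiently many vertices to one of diameter three. -/
theorem nk_ext [Nonempty W] (hconn : ∀ T : Set W, Sep Q T → d ≤ T.ncard) {k : ℕ}
    (hk : ∀ A : Set W, A.ncard ≤ k → ∃ T : Set W, A ⊆ T ∧ T.ncard = d ∧ Sep Q T)
    (t : ℕ) (hs : 2 * d + 2 + t ≤ Nat.card W) :
    IsNK (ext (dbl Q) (Set.range Sum.inl) t) (2 * d + 2 + t) k := by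
  have hN : ∀ y, y ∉ Set.range Sum.inl → (dbl Q).neighborSet y ⊆ Set.range Sum.inl ∧
      2 * d + 2 + t ≤ ((dbl Q).neighborSet y).ncard := by
    rintro (y | c) hy
    · exact absurd ⟨y, rfl⟩ hy
    · constructor
      · rintro (x | c') hx
        · exact ⟨x, rfl⟩
        · exact absurd hx (fun h => h)
      · have h1 : (dbl Q).neighborSet (Sum.inr c) = L c Set.univ := by
          ext x
          rcases x with ⟨i, b⟩ | b
          · rw [mem_L]
            exact ⟨fun h => ⟨h, trivial⟩, fun h => h.1⟩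
          · exact ⟨fun h => h.elim, fun h => absurd h not_mem_L⟩
        rw [h1, ncard_L, Set.ncard_univ]
        exact hs
  refine isNK_ext (conn_dbl' hconn (by omega)) (cuts_dbl' hk) ⟨Sum.inr true, by
    rintro ⟨y, hy⟩
    exact absurd hy (by simp)⟩ hN

end Pool.Agent.W5h84.NK
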