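import Pool.Agent.W5h84.NK.Circ2

/-!
# A 3-critically 24-connected graph of diameter three

For a finite graph `G` let `mu G` be its vertex connectivity. An `(n, k)`-graph is a graph `G` with
`mu (G - X) = n - |X|` for all sets `X` of at most `k` vertices (`IsNK G n k`; both definitions are
in `Pool.Agent.W5h84.NK.Basic`). Mader proved that the diameter of an `(n, 3)`-graph is at most
four. That there are `(n, 3)`-graphs of diameter three was proved by Kriesell (2006).

Theorem. There is a `(24, 3)`-graph with 50 vertices and diameter three.

The graph. Let `Q` be the circulant graph on `ℤ/24` in which `x` and `y` are adjacent if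
`x - y ∈ {±1, ±3, ±4, ±5, ±7, 12}`. It is 11-regular and 11-connected, and any three of its vertices
have a common neighbour. Replace each vertex `x` of `Q` by two adjacent vertices `(x, 0)` and
`(x, 1)`, where `(x, i)` and `(y, j)` are adjacent for all `i, j` if `x` and `y` are, and add two
vertices `u_0` and `u_1`, where `u_i` is adjacent to all the vertices `(x, i)`.

The vertices `u_0` and `u_1` have distance three. The graph is 24-connected, since
`24 ≥ 2 * 11 + 2`, and the sets of 24 vertices separating `(x, i)`, or the pair
`{(x, 0), (x, 1)}`, from the rest contain all sets of three vertices: the first contains all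
`(y, j)` for which `y` is adjacent to `x`, and `u_i`, and the second both `u_0` and `u_1`.
-/

set_option autoImplicit false

namespace Pool.Agent.W5h84.NK.DiameterThree

open Pool.Agent.W5h84.NK

/-- There is a `(24, 3)`-graph with 50 vertices which is connected and has diameter three. -/
theorem result : ∃ (V : Type) (G : SimpleGraph V), Nat.card V = 50 ∧ IsNK G 24 3 ∧ G.Connected ∧
    G.diam = 3 :=
  exists_graph

end Pool.Agent.W5h84.NK.DiameterThree
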