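import Pool.Agent.W5h84.NK.Power

set_option autoImplicit false
set_option linter.unusedSectionVars false

/-!
# Adding vertices joined to a given set of vertices
-/

namespace Pool.Agent.W5h84.NK

open SimpleGraph

variable {V : Type}

/-- The adjacency of `ext G U t`. -/
def extAdj (G : SimpleGraph V) (U : Set V) (t : ℕ) : V ⊕ Fin t → V ⊕ Fin t → Prop
  | Sum.inl x, Sum.inl y => G.Adj x y
  | Sum.inl x, Sum.inr _ => x ∈ U
  | Sum.inr _, Sum.inl y => y ∈ U
  | Sum.inr _, Sum.inr _ => False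

/-- The graph `G` with `t` further vertices, joined to the vertices of `U`. -/
def ext (G : SimpleGraph V) (U : Set V) (t : ℕ) : SimpleGraph (V ⊕ Fin t) where
  Adj := extAdj G U t
  symm := ⟨by
    rintro (x | x) (y | y) h
    · exact G.symm.1 _ _ h
    · exact h
    · exact h
    · exact h⟩
  loopless := ⟨by
    rintro (x | x) h
    · exact G.irrefl h
    · exact h⟩

variable {G : SimpleGraph V} {U : Set V} {t : ℕ} [Finite V]

lemma ext_ll {x y : V} : (ext G U t).Adj (Sum.inl x) (Sum.inl y) ↔ G.Adj x y := Iff.rfl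
lemma ext_lr {x : V} {z : Fin t} : (ext G U t).Adj (Sum.inl x) (Sum.inr z) ↔ x ∈ U := Iff.rfl
lemma ext_rl {x : V} {z : Fin t} : (ext G U t).Adj (Sum.inr z) (Sum.inl x) ↔ x ∈ U := Iff.rfl
lemma ext_rr {z z' : Fin t} : ¬ (ext G U t).Adj (Sum.inr z) (Sum.inr z') := fun h => h

lemma ncard_ext (T : Set V) :
    (Sum.inl '' T ∪ Set.range (Sum.inr : Fin t → V ⊕ Fin t)).ncard = T.ncard + t := by
  have hd : Disjoint (Sum.inl '' T) (Set.range (Sum.inr : Fin t → V ⊕ Fin t)) := by
    rw [Set.disjoint_left]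
    rintro _ ⟨x, _, rfl⟩ ⟨z, hz⟩
    exact absurd hz (by simp)
  rw [Set.ncard_union_eq hd (Set.toFinite _) (Set.toFinite _),
    Set.ncard_image_of_injective _ Sum.inl_injective, ← Set.image_univ,
    Set.ncard_image_of_injective _ Sum.inr_injective, Set.ncard_univ, Nat.card_eq_fintype_card,
    Fintype.card_fin]

/-- one of the new vertices is not in the separating set -/
lemma ext_big {n : ℕ} (hU : ∃ y, y ∉ U) (hN : ∀ y, y ∉ U → G.neighborSet y ⊆ U ∧
    n ≤ (G.neighborSet y).ncard) {T F F' : Set (V ⊕ Fin t)} (hF' : F'.Nonempty)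
    (hd : Disjoint F F') (hu : F ∪ F' = Tᶜ) (h : ∀ x ∈ F, ∀ y ∈ F', ¬ (ext G U t).Adj x y)
    {z : Fin t} (hz : Sum.inr z ∈ F) : n ≤ T.ncard := by
  have hcases : ∀ x, x ∉ F → x ∉ F' → x ∈ T := by
    intro x hx hx'
    by_contra hT
    have : x ∈ F ∪ F' := by rw [hu]; exact hT
    rcases this with h | h
    · exact hx h
    · exact hx' h
  have hUF' : ∀ x ∈ U, (Sum.inl x : V ⊕ Fin t) ∉ F' := fun x hx hx' => h _ hz _ hx' (ext_rl.2 hx)
  -- a vertex outside `U` all of whose neighbours are in `T`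
  have key : ∃ y, y ∉ U ∧ ∀ x ∈ G.neighborSet y, (Sum.inl x : V ⊕ Fin t) ∈ T := by
    obtain ⟨w, hw⟩ := hF'
    rcases w with y | z'
    · have hy : y ∉ U := fun hy => hUF' y hy hw
      refine ⟨y, hy, fun x hx => hcases _ ?_ (hUF' x ((hN y hy).1 hx))⟩
      intro hxF
      exact h _ hxF _ hw (ext_ll.2 (G.symm.1 _ _ hx))
    · obtain ⟨y, hy⟩ := hU
      refine ⟨y, hy, fun x hx => hcases _ ?_ (hUF' x ((hN y hy).1 hx))⟩
      intro hxF
      exact h _ hxF _ hw (ext_lr.2 ((hN y hy).1 hx))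
  obtain ⟨y, hy, hy'⟩ := key
  have h1 : Sum.inl '' G.neighborSet y ⊆ T := by
    rintro _ ⟨x, hx, rfl⟩
    exact hy' x hx
  have h2 := Set.ncard_le_ncard h1 (Set.toFinite _)
  rw [Set.ncard_image_of_injective _ Sum.inl_injective] at h2
  exact (hN y hy).2.trans h2

/-- The graph `ext G U t` is an `(n + t, k)`-graph. -/
theorem isNK_ext {n k : ℕ} (hc : ∀ T : Set V, Sep G T → n ≤ T.ncard)
    (hk : ∀ X : Set V, X.ncard ≤ k → ∃ T : Set V, X ⊆ T ∧ T.ncard = n ∧ Sep G T)
    (hU : ∃ y, y ∉ U)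
    (hN : ∀ y, y ∉ U → G.neighborSet y ⊆ U ∧ n + t ≤ (G.neighborSet y).ncard) :
    IsNK (ext G U t) (n + t) k := by
  apply isNK_of
  · rintro T hT ⟨F, F', hF, hF', hd, hu, h⟩
    have h' : ∀ x ∈ F', ∀ y ∈ F, ¬ (ext G U t).Adj x y := fun x hx y hy hxy => h y hy x hx hxy.symm
    have hu' : F' ∪ F = Tᶜ := by rw [Set.union_comm]; exact hu
    by_cases hz : ∃ z : Fin t, (Sum.inr z : V ⊕ Fin t) ∉ T
    · obtain ⟨z, hz⟩ := hz
      have : (Sum.inr z : V ⊕ Fin t) ∈ F ∪ F' := by rw [hu]; exact hz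
      rcases this with h1 | h1
      · have := ext_big hU hN hF' hd hu h h1
        omega
      · have := ext_big hU hN hF hd.symm hu' h' h1
        omega
    · push Not at hz
      have hTF : ∀ x, x ∈ T → x ∉ F ∧ x ∉ F' := by
        intro x hx
        constructor
        · intro hxF
          have : x ∈ Tᶜ := hu ▸ Or.inl hxF
          exact this hx
        · intro hxF
          have : x ∈ Tᶜ := hu ▸ Or.inr hxF
          exact this hx
      have hne : ∀ {E : Set (V ⊕ Fin t)}, E.Nonempty → (∀ x ∈ T, x ∉ E) →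
          (Sum.inl ⁻¹' E : Set V).Nonempty := by
        rintro E ⟨y, hy⟩ hE
        rcases y with y | z
        · exact ⟨y, hy⟩
        · exact absurd hy (hE _ (hz z))
      have h1 : Sep G (Sum.inl ⁻¹' T) := by
        refine ⟨Sum.inl ⁻¹' F, Sum.inl ⁻¹' F', hne hF (fun x hx => (hTF x hx).1),
          hne hF' (fun x hx => (hTF x hx).2), hd.preimage _, ?_, ?_⟩
        · rw [← Set.preimage_union, hu, Set.preimage_compl]
        · intro x hx y hy hxy
          exact h _ hx _ hy (ext_ll.2 hxy)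
      have h2 := hc _ h1
      have h3 : Sum.inl '' (Sum.inl ⁻¹' T : Set V) ∪ Set.range (Sum.inr : Fin t → V ⊕ Fin t) ⊆ T := by
        rintro x (⟨y, hy, rfl⟩ | ⟨z, rfl⟩)
        · exact hy
        · exact hz z
      have h4 := Set.ncard_le_ncard h3 (Set.toFinite _)
      rw [ncard_ext] at h4
      omega
  · intro X hX
    have h1 : (Sum.inl ⁻¹' X : Set V).ncard ≤ k := by
      refine le_trans ?_ hX
      rw [← Set.ncard_image_of_injective _ (Sum.inl_injective (β := Fin t))]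
      exact Set.ncard_le_ncard (Set.image_preimage_subset _ _) (Set.toFinite _)
    obtain ⟨T, hXT, hTn, F, F', hF, hF', hd, hu, h⟩ := hk _ h1
    refine ⟨Sum.inl '' T ∪ Set.range Sum.inr, ?_, by rw [ncard_ext, hTn], Sum.inl '' F,
      Sum.inl '' F', hF.image _, hF'.image _, ?_, ?_, ?_⟩
    · rintro (x | z) hx
      · exact Or.inl ⟨x, hXT hx, rfl⟩
      · exact Or.inr ⟨z, rfl⟩
    · rwa [Set.disjoint_image_iff Sum.inl_injective]
    · rw [← Set.image_union, hu]
      ext x
      rcases x with x | z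
      · simp
      · simp
    · rintro _ ⟨x, hx, rfl⟩ _ ⟨y, hy, rfl⟩ hxy
      exact h x hx y hy hxy

/-- a diameter criterion -/
lemma diam_three {V : Type} [Finite V] {G : SimpleGraph V} (hw : ∀ x y, ∃ p : G.Walk x y, p.length ≤ 3)
    {u v : V} (huv : u ≠ v) (h1 : ¬ G.Adj u v) (h2 : ∀ z, ¬ (G.Adj u z ∧ G.Adj z v)) :
    G.Connected ∧ G.diam = 3 := by
  have : Nonempty V := ⟨u⟩
  have hconn : G.Connected := ⟨fun x y => ⟨(hw x y).choose⟩⟩
  refine ⟨hconn, ?_⟩
  have hle : ∀ x y, G.dist x y ≤ 3 := by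
    intro x y
    obtain ⟨p, hp⟩ := hw x y
    exact (dist_le p).trans hp
  have hge : 3 ≤ G.dist u v := by
    obtain ⟨p, hp⟩ := (hconn.preconnected u v).exists_walk_length_eq_dist
    rw [← hp]
    match p with
    | Walk.nil => exact absurd rfl huv
    | Walk.cons h Walk.nil => exact absurd h h1
    | @Walk.cons _ _ _ z _ h (Walk.cons h' Walk.nil) => exact absurd ⟨h, h'⟩ (h2 z)
    | Walk.cons _ (Walk.cons _ (Walk.cons _ _)) => simp only [Walk.length_cons]; omega
  apply le_antisymm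
  · obtain ⟨x, y, hxy⟩ := G.exists_dist_eq_diam
    rw [← hxy]
    exact hle x y
  · refine hge.trans (dist_le_diam ?_)
    exact connected_iff_ediam_ne_top.1 hconn

end Pool.Agent.W5h84.NK
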