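import Mathlib

set_option autoImplicit false

/-!
# The alternating form on `𝔽₂^{2r}`
-/

namespace Pool.Agent.W5h84.NK

open Matrix

instance : Fact (Nat.Prime 2) := ⟨Nat.prime_two⟩

/-- the space -/
abbrev VV (r : ℕ) : Type := (Fin r → ZMod 2) × (Fin r → ZMod 2)

/-- the form -/
noncomputable def BB (r : ℕ) : VV r →ₗ[ZMod 2] VV r →ₗ[ZMod 2] ZMod 2 :=
  LinearMap.mk₂ (ZMod 2) (fun x y => x.1 ⬝ᵥ y.2 + x.2 ⬝ᵥ y.1)
    (by intro a b c; simp only [Prod.fst_add, Prod.snd_add, add_dotProduct]; ring)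
    (by intro a b c; simp only [Prod.smul_fst, Prod.smul_snd, smul_dotProduct, smul_add])
    (by intro a b c; simp only [Prod.fst_add, Prod.snd_add, dotProduct_add]; ring)
    (by intro a b c; simp only [Prod.smul_fst, Prod.smul_snd, dotProduct_smul, smul_add])

variable {r : ℕ}

lemma BB_apply (x y : VV r) : BB r x y = x.1 ⬝ᵥ y.2 + x.2 ⬝ᵥ y.1 := rfl

lemma BB_comm (x y : VV r) : BB r x y = BB r y x := by
  rw [BB_apply, BB_apply, dotProduct_comm x.1, dotProduct_comm x.2, add_comm]

lemma BB_self (x : VV r) : BB r x x = 0 := by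
  rw [BB_apply, dotProduct_comm x.2 x.1]
  exact CharTwo.add_self_eq_zero _

lemma zmod2 (a : ZMod 2) : a = 0 ∨ a = 1 := by
  revert a; decide

lemma ne_zero_iff (a : ZMod 2) : a ≠ 0 ↔ a = 1 := by
  revert a; decide

lemma BB_nondeg {x : VV r} (hx : x ≠ 0) : ∃ y, BB r x y = 1 := by
  by_cases h : x.1 = 0
  · have h2 : x.2 ≠ 0 := by
      intro h2
      exact hx (Prod.ext h h2)
    obtain ⟨i, hi⟩ := Function.ne_iff.1 h2
    refine ⟨(Pi.single i 1, 0), ?_⟩
    rw [BB_apply, h]
    simp only [dotProduct_zero, zero_add, dotProduct_single, mul_one]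
    exact (ne_zero_iff _).1 hi
  · obtain ⟨i, hi⟩ := Function.ne_iff.1 h
    refine ⟨(0, Pi.single i 1), ?_⟩
    rw [BB_apply]
    simp only [dotProduct_zero, add_zero, dotProduct_single, mul_one]
    exact (ne_zero_iff _).1 hi

lemma card_VV (r : ℕ) : Nat.card (VV r) = 4 ^ r := by
  rw [Nat.card_prod, Nat.card_eq_fintype_card, Fintype.card_fun, ZMod.card, Fintype.card_fin,
    ← mul_pow]
  norm_num

lemma finrank_VV (r : ℕ) : Module.finrank (ZMod 2) (VV r) = 2 * r := by
  rw [Module.finrank_prod, Module.finrank_fin_fun]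
  ring

/-- the fibers of an additive map onto a finite group are of the same size -/
lemma card_fiber {A : Type} [AddCommGroup A] [Finite A] (f : VV r →+ A)
    (hf : Function.Surjective f) (a : A) : Nat.card A * {x | f x = a}.ncard = 4 ^ r := by
  classical
  have := Fintype.ofFinite A
  have h1 : ∀ b : A, (Finset.univ.filter (fun x => f x = b)).card =
      (Finset.univ.filter (fun x => f x = a)).card := fun b =>
    AddMonoidHom.card_fiber_eq_of_mem_range f (hf b) (hf a)
  have h2 : (Finset.univ : Finset (VV r)).card = ∑ b : A, (Finset.univ.filter (fun x => f x = b)).card :=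
    Finset.card_eq_sum_card_fiberwise (fun x _ => Finset.mem_coe.2 (Finset.mem_univ _))
  simp only [h1] at h2
  rw [Finset.sum_const, Finset.card_univ, ← Nat.card_eq_fintype_card, card_VV, Finset.card_univ,
    smul_eq_mul, ← Nat.card_eq_fintype_card] at h2
  rw [h2]
  congr 1
  rw [← Set.ncard_coe_finset]
  congr 1
  ext x
  simp

lemma two_mul_hyp {a : VV r} (ha : a ≠ 0) (e : ZMod 2) : 2 * {x | BB r x a = e}.ncard = 4 ^ r := by
  have := card_fiber ((BB r).flip a).toAddMonoidHom (by
    intro c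
    obtain ⟨y, hy⟩ := BB_nondeg ha
    refine ⟨c • y, ?_⟩
    show BB r (c • y) a = c
    rw [map_smul, LinearMap.smul_apply, BB_comm, hy, smul_eq_mul, mul_one]) e
  rw [Nat.card_zmod] at this
  exact this

lemma exists_dual {a b : VV r} (ha : a ≠ 0) (hab : a ≠ b) :
    ∃ c, BB r c a = 1 ∧ BB r c b = 0 := by
  have hab' : a + b ≠ 0 := by
    intro h
    apply hab
    have : a = -b := eq_neg_of_add_eq_zero_left h
    rw [this, ZModModule.neg_eq_self]
  obtain ⟨w, hw⟩ := BB_nondeg hab'
  rw [BB_comm, map_add] at hw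
  obtain ⟨w', hw'⟩ := BB_nondeg ha
  rw [BB_comm] at hw'
  rcases zmod2 (BB r w a) with h1 | h1
  · have h2 : BB r w b = 1 := by rw [h1, zero_add] at hw; exact hw
    rcases zmod2 (BB r w' b) with h3 | h3
    · exact ⟨w', hw', h3⟩
    · refine ⟨w + w', ?_, ?_⟩
      · rw [map_add, LinearMap.add_apply, h1, hw', zero_add]
      · rw [map_add, LinearMap.add_apply, h2, h3]
        decide
  · refine ⟨w, h1, ?_⟩
    rw [h1] at hw
    simpa using hw

lemma four_mul_hyp {a b : VV r} (ha : a ≠ 0) (hb : b ≠ 0) (hab : a ≠ b) :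
    4 * {x | BB r x a = 1 ∧ BB r x b = 1}.ncard = 4 ^ r := by
  obtain ⟨c, hc1, hc2⟩ := exists_dual ha hab
  obtain ⟨c', hc1', hc2'⟩ := exists_dual hb hab.symm
  have := card_fiber (((BB r).flip a).toAddMonoidHom.prod ((BB r).flip b).toAddMonoidHom) (by
    rintro ⟨s, t⟩
    refine ⟨s • c + t • c', ?_⟩
    show (BB r (s • c + t • c') a, BB r (s • c + t • c') b) = (s, t)
    simp only [map_add, map_smul, LinearMap.add_apply, LinearMap.smul_apply, hc1, hc2, hc1', hc2',
      smul_eq_mul, mul_one, mul_zero, add_zero, zero_add]) (1, 1)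
  rw [Nat.card_prod, Nat.card_zmod] at this
  rw [← this]
  congr 2
  ext x
  show _ ↔ (BB r x a, BB r x b) = (1, 1)
  simp

/-- Two sets of vectors with all values of the form equal to one. -/
lemma sets_bound {P P' : Set (VV r)} (hP : P.Nonempty) (hP' : P'.Nonempty)
    (h : ∀ x ∈ P, ∀ y ∈ P', BB r x y = 1) : 2 * (P.ncard + P'.ncard) ≤ 4 ^ r + 2 := by
  have hne : ∀ {x y : VV r}, BB r x y = 1 → y ≠ 0 := by
    rintro x y hxy rfl
    rw [map_zero] at hxy
    exact absurd hxy (by decide)
  have key1 : ∀ {P P' : Set (VV r)}, P.Nonempty → (∀ x ∈ P, ∀ y ∈ P', BB r x y = 1) →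
      P'.Nonempty → 2 * P'.ncard ≤ 4 ^ r := by
    rintro P P' ⟨x, hx⟩ h ⟨y, hy⟩
    have hx0 : x ≠ 0 := by
      have := h x hx y hy
      rw [BB_comm] at this
      exact hne this
    rw [← two_mul_hyp hx0 1]
    refine Nat.mul_le_mul_left 2 (Set.ncard_le_ncard ?_ (Set.toFinite _))
    intro y hy
    show BB r y x = 1
    rw [BB_comm]
    exact h x hx y hy
  have key2 : ∀ {P P' : Set (VV r)}, 1 < P.ncard → (∀ x ∈ P, ∀ y ∈ P', BB r x y = 1) →
      P'.Nonempty → 4 * P'.ncard ≤ 4 ^ r := by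
    rintro P P' hP h ⟨y, hy⟩
    obtain ⟨x, x', hx, hx', hxx'⟩ := (Set.one_lt_ncard_iff (Set.toFinite _)).1 hP
    have hx0 : ∀ z ∈ P, z ≠ 0 := by
      intro z hz
      have := h z hz y hy
      rw [BB_comm] at this
      exact hne this
    rw [← four_mul_hyp (hx0 x hx) (hx0 x' hx') hxx']
    refine Nat.mul_le_mul_left 4 (Set.ncard_le_ncard ?_ (Set.toFinite _))
    intro y hy
    show BB r y x = 1 ∧ BB r y x' = 1
    rw [BB_comm, BB_comm y x']
    exact ⟨h x hx y hy, h x' hx' y hy⟩
  have h' : ∀ x ∈ P', ∀ y ∈ P, BB r x y = 1 := fun x hx y hy => by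
    rw [BB_comm]
    exact h y hy x hx
  have a1 := key1 hP h hP'
  have a2 := key1 hP' h' hP
  by_cases b1 : 1 < P.ncard
  · by_cases b2 : 1 < P'.ncard
    · have c1 := key2 b1 h hP'
      have c2 := key2 b2 h' hP
      omega
    · omega
  · omega

/-- Any `2 r - 2` vectors are orthogonal to a further vector different from `0`. -/
lemma exists_orth (X : Set (VV r)) (hX : X.ncard + 2 ≤ 2 * r) :
    ∃ m, m ≠ 0 ∧ m ∉ X ∧ ∀ x ∈ X, BB r m x = 0 := by
  classical
  by_contra hcon
  push Not at hcon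
  set S := Submodule.span (ZMod 2) X with hS
  let φ : VV r →ₗ[ZMod 2] Module.Dual (ZMod 2) S := (Submodule.dualRestrict S).comp (BB r)
  set K := LinearMap.ker φ with hK
  have hKm : ∀ m, m ∈ K ↔ ∀ x ∈ X, BB r m x = 0 := by
    intro m
    rw [hK, LinearMap.mem_ker]
    constructor
    · intro h x hx
      have := LinearMap.congr_fun h ⟨x, Submodule.subset_span hx⟩
      exact this
    · intro h
      ext ⟨x, hx⟩
      show BB r m x = 0
      have hle : S ≤ LinearMap.ker (BB r m) := Submodule.span_le.2 (fun x hx => h x hx)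
      exact hle hx
  have h1 : Module.finrank (ZMod 2) (LinearMap.range φ) + Module.finrank (ZMod 2) K = 2 * r := by
    rw [LinearMap.finrank_range_add_finrank_ker, finrank_VV]
  have h2 : Module.finrank (ZMod 2) (LinearMap.range φ) ≤ Module.finrank (ZMod 2) S := by
    refine (Submodule.finrank_le _).trans ?_
    rw [Subspace.dual_finrank_eq]
  -- the vectors in `K` are in `X`
  have h3 : (K : Set (VV r)) \ {0} ⊆ X := by
    rintro m ⟨hm, hm0⟩
    by_contra hmX
    obtain ⟨x, hx, hx'⟩ := hcon m hm0 hmX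
    exact hx' ((hKm m).1 hm x hx)
  have h4 : (K : Set (VV r)).ncard = 2 ^ Module.finrank (ZMod 2) K := by
    rw [← Nat.card_coe_set_eq]
    have := Module.card_eq_pow_finrank (K := ZMod 2) (V := K)
    rw [ZMod.card] at this
    rw [← this, Nat.card_eq_fintype_card]
    rfl
  have h5 : ((K : Set (VV r)) \ {0}).ncard = 2 ^ Module.finrank (ZMod 2) K - 1 := by
    rw [Set.ncard_sdiff_singleton_of_mem K.zero_mem, h4]
  have h6 : Module.finrank (ZMod 2) S ≤ Module.finrank (ZMod 2) K + (X \ K).ncard := by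
    have hle : S ≤ K ⊔ Submodule.span (ZMod 2) (X \ K) := by
      refine Submodule.span_le.2 ?_
      intro x hx
      by_cases hxK : x ∈ K
      · exact Submodule.mem_sup_left hxK
      · exact Submodule.mem_sup_right (Submodule.subset_span ⟨hx, hxK⟩)
    refine (Submodule.finrank_mono hle).trans ?_
    refine (Submodule.finrank_add_le_finrank_add_finrank _ _).trans ?_
    refine Nat.add_le_add_left ?_ _
    have := finrank_span_le_card (R := ZMod 2) (X \ (K : Set (VV r)))
    rw [Set.ncard_eq_toFinset_card']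
    exact this
  have h7 : X.ncard = ((K : Set (VV r)) \ {0}).ncard + (X \ ((K : Set (VV r)) \ {0})).ncard := by
    rw [add_comm]
    exact (Set.ncard_sdiff_add_ncard_of_subset h3 (Set.toFinite _)).symm
  have h8 : (X \ K).ncard ≤ (X \ ((K : Set (VV r)) \ {0})).ncard := by
    refine Set.ncard_le_ncard ?_ (Set.toFinite _)
    rintro x ⟨hx, hxK⟩
    exact ⟨hx, fun h => hxK h.1⟩
  have h9 : ∀ t : ℕ, 2 * t < 2 ^ t + 1 := by
    intro t
    induction t with
    | zero => norm_num
    | succ t ih =>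
      rcases t with _ | t
      · norm_num
      · rw [pow_succ]
        have : 2 ≤ 2 ^ (t + 1) := by
          rw [pow_succ]
          have := Nat.one_le_two_pow (n := t)
          omega
        omega
  have h10 := h9 (Module.finrank (ZMod 2) K)
  have h11 : 1 ≤ 2 ^ Module.finrank (ZMod 2) K := Nat.one_le_two_pow
  rw [h5] at h7
  omega

end Pool.Agent.W5h84.NK
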