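import Pool.Agent.W5h84.NK.Dbl2
import Pool.Agent.W5h84.NK.Symp

set_option autoImplicit false

/-!
# Orthogonality graphs and `(n, k)`-graphs of diameter three with `k` of the order `log n`
-/

namespace Pool.Agent.W5h84.NK

open SimpleGraph

variable {r b : ℕ}

/-- The vertices are the nonzero vectors, each with `b` labels; two vertices are adjacent if their
vectors are orthogonal. -/
def orth (r b : ℕ) : SimpleGraph ({x : VV r // x ≠ 0} × Fin b) where
  Adj p q := p ≠ q ∧ BB r p.1.1 q.1.1 = 0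
  symm := ⟨fun _ _ h => ⟨h.1.symm, by rw [BB_comm]; exact h.2⟩⟩
  loopless := ⟨fun _ h => h.1 rfl⟩

lemma orth_adj {p q : {x : VV r // x ≠ 0} × Fin b} :
    (orth r b).Adj p q ↔ p ≠ q ∧ BB r p.1.1 q.1.1 = 0 := Iff.rfl

/-- the vector and the label of a vertex -/
def vl (r b : ℕ) : {x : VV r // x ≠ 0} × Fin b → VV r × Fin b := fun p => (p.1.1, p.2)

lemma vl_inj : Function.Injective (vl r b) := by
  rintro ⟨⟨x, hx⟩, i⟩ ⟨⟨y, hy⟩, j⟩ h
  simp only [vl, Prod.mk.injEq] at h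
  obtain ⟨rfl, rfl⟩ := h
  rfl

lemma card_orth {q : ℕ} (hq : 4 ^ r = 2 * q) :
    Nat.card ({x : VV r // x ≠ 0} × Fin b) = b * (2 * q - 1) := by
  have h1 : Nat.card {x : VV r // x ≠ 0} = 2 * q - 1 := by
    have h2 : Nat.card {x : VV r // x ≠ 0} = ({0}ᶜ : Set (VV r)).ncard := rfl
    have h3 : ({0} : Set (VV r)).ncard + ({0}ᶜ : Set (VV r)).ncard = Nat.card (VV r) :=
      Set.ncard_add_ncard_compl {0}
    rw [Set.ncard_singleton, card_VV, hq] at h3
    omega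
  rw [Nat.card_prod, h1, Nat.card_eq_fintype_card, Fintype.card_fin, mul_comm]

lemma ncard_le_mul (F : Set ({x : VV r // x ≠ 0} × Fin b)) :
    F.ncard ≤ b * ((fun p : {x : VV r // x ≠ 0} × Fin b => p.1.1) '' F).ncard := by
  set P := (fun p : {x : VV r // x ≠ 0} × Fin b => p.1.1) '' F with hP
  have h1 : vl r b '' F ⊆ P ×ˢ (Set.univ : Set (Fin b)) := by
    rintro _ ⟨p, hp, rfl⟩
    exact ⟨⟨p, hp, rfl⟩, trivial⟩
  have h2 := Set.ncard_le_ncard h1 (Set.toFinite _)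
  rw [Set.ncard_image_of_injective _ vl_inj, Set.ncard_prod, Set.ncard_univ,
    Nat.card_eq_fintype_card, Fintype.card_fin] at h2
  rwa [mul_comm] at h2

lemma orth_conn {q : ℕ} (hq : 4 ^ r = 2 * q) (T : Set ({x : VV r // x ≠ 0} × Fin b))
    (hT : Sep (orth r b) T) : b * (q - 2) ≤ T.ncard := by
  obtain ⟨F, F', hF, hF', hd, hu, h⟩ := hT
  have h1 := sets_bound (hF.image (fun p => p.1.1)) (hF'.image (fun p => p.1.1)) (by
    rintro _ ⟨p, hp, rfl⟩ _ ⟨p', hp', rfl⟩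
    rw [← ne_zero_iff]
    intro h0
    refine h p hp p' hp' ⟨?_, h0⟩
    rintro rfl
    exact Set.disjoint_left.1 hd hp hp')
  have h2 := ncard_le_mul F
  have h3 := ncard_le_mul F'
  have h4 : T.ncard + Tᶜ.ncard = Nat.card ({x : VV r // x ≠ 0} × Fin b) :=
    Set.ncard_add_ncard_compl T
  rw [← hu, Set.ncard_union_eq hd (Set.toFinite _) (Set.toFinite _), card_orth hq] at h4
  set u := ((fun p : {x : VV r // x ≠ 0} × Fin b => p.1.1) '' F).ncard
  set v := ((fun p : {x : VV r // x ≠ 0} × Fin b => p.1.1) '' F').ncard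
  have h5 : b * (u + v) ≤ b * (q + 1) := Nat.mul_le_mul_left b (by omega)
  have h6 : b * (q - 2) + b * (q + 1) ≤ b * (2 * q - 1) ∨ q < 2 := by
    by_cases h7 : q < 2
    · exact Or.inr h7
    · left
      rw [← mul_add]
      exact Nat.mul_le_mul_left b (by omega)
  rw [mul_add] at h5
  rcases h6 with h6 | h6
  · omega
  · have : q - 2 = 0 := by omega
    rw [this, mul_zero]
    exact Nat.zero_le _

/-- the cut belonging to the vector `m` -/
def ocut (b : ℕ) (m : VV r) : Set ({x : VV r // x ≠ 0} × Fin b) :=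
  {p | p.1.1 ≠ m ∧ BB r m p.1.1 = 0}

lemma ncard_ocut {q : ℕ} (hq : 4 ^ r = 2 * q) {m : VV r} (hm : m ≠ 0) :
    (ocut b m).ncard = b * (q - 2) := by
  have h1 : vl r b '' ocut b m = ({x | BB r x m = 0} \ {0, m}) ×ˢ (Set.univ : Set (Fin b)) := by
    ext ⟨x, i⟩
    constructor
    · rintro ⟨p, ⟨hp1, hp2⟩, hp⟩
      simp only [vl, Prod.mk.injEq] at hp
      obtain ⟨rfl, rfl⟩ := hp
      refine ⟨⟨?_, ?_⟩, trivial⟩
      · show BB r p.1.1 m = 0
        rw [BB_comm]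
        exact hp2
      · rintro (h | h)
        · exact p.1.2 h
        · exact hp1 h
    · rintro ⟨⟨h2, h3⟩, -⟩
      have hx : x ≠ 0 := fun h => h3 (Or.inl h)
      refine ⟨(⟨x, hx⟩, i), ⟨fun h => h3 (Or.inr h), ?_⟩, rfl⟩
      rw [BB_comm]
      exact h2
  have h2 := two_mul_hyp hm 0
  have h3 : ({x | BB r x m = 0} \ {0, m}).ncard = q - 2 := by
    rw [Set.ncard_sdiff _ (Set.toFinite _)]
    · rw [Set.ncard_pair hm.symm]
      omega
    · rintro x (rfl | rfl)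
      · show BB r 0 m = 0
        rw [map_zero, LinearMap.zero_apply]
      · exact BB_self _
  rw [← Set.ncard_image_of_injective _ vl_inj, h1, Set.ncard_prod, h3, Set.ncard_univ,
    Nat.card_eq_fintype_card, Fintype.card_fin, mul_comm]

lemma sep_ocut (hb : 0 < b) {m : VV r} (hm : m ≠ 0) : Sep (orth r b) (ocut b m) := by
  obtain ⟨y, hy⟩ := BB_nondeg hm
  have hy0 : y ≠ 0 := by
    rintro rfl
    rw [map_zero] at hy
    exact absurd hy (by decide)
  refine ⟨{p | p.1.1 = m}, {p | BB r m p.1.1 = 1}, ⟨(⟨m, hm⟩, ⟨0, hb⟩), rfl⟩,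
    ⟨(⟨y, hy0⟩, ⟨0, hb⟩), hy⟩, ?_, ?_, ?_⟩
  · rw [Set.disjoint_left]
    intro p hp hp'
    have h1 : p.1.1 = m := hp
    have h2 : BB r m p.1.1 = 1 := hp'
    rw [h1, BB_self] at h2
    exact absurd h2 (by decide)
  · ext p
    show p.1.1 = m ∨ BB r m p.1.1 = 1 ↔ ¬ (p.1.1 ≠ m ∧ BB r m p.1.1 = 0)
    rcases zmod2 (BB r m p.1.1) with h | h
    · rw [h]
      simp
    · rw [h]
      simp
  · intro p hp p' hp' hpp'
    have h1 : p.1.1 = m := hp
    have h2 : BB r m p'.1.1 = 1 := hp'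
    have h3 := hpp'.2
    rw [h1, h2] at h3
    exact absurd h3 (by decide)

lemma orth_cuts (hb : 0 < b) {q k : ℕ} (hq : 4 ^ r = 2 * q) (hk : k + 2 ≤ 2 * r)
    (A : Set ({x : VV r // x ≠ 0} × Fin b)) (hA : A.ncard ≤ k) :
    ∃ T, A ⊆ T ∧ T.ncard = b * (q - 2) ∧ Sep (orth r b) T := by
  obtain ⟨m, hm, hmA, h⟩ := exists_orth ((fun p : {x : VV r // x ≠ 0} × Fin b => p.1.1) '' A) (by
    have := Set.ncard_image_le (f := fun p : {x : VV r // x ≠ 0} × Fin b => p.1.1)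
      (Set.toFinite A)
    omega)
  refine ⟨ocut b m, ?_, ncard_ocut hq hm, sep_ocut hb hm⟩
  intro p hp
  refine ⟨?_, h _ ⟨p, hp, rfl⟩⟩
  rintro rfl
  exact hmA ⟨p, hp, rfl⟩

lemma orth_pair (hr : 2 ≤ r) (i j : {x : VV r // x ≠ 0} × Fin b) :
    ∃ m, (orth r b).Adj m i ∧ (orth r b).Adj m j := by
  obtain ⟨m, hm, hmA, h⟩ := exists_orth {i.1.1, j.1.1} (by
    have := Set.ncard_insert_le i.1.1 {j.1.1}
    rw [Set.ncard_singleton] at this
    omega)
  refine ⟨(⟨m, hm⟩, i.2), ⟨?_, h _ (Or.inl rfl)⟩, ⟨?_, h _ (Or.inr rfl)⟩⟩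
  · intro he
    apply hmA
    left
    rw [← he]
  · intro he
    apply hmA
    right
    rw [← he]
    rfl

/-- One family of graphs. -/
theorem exists_fam (r b t : ℕ) (hr : 2 ≤ r) (ht : t + 2 ≤ 3 * b) :
    ∃ (V : Type) (G : SimpleGraph V), Finite V ∧ IsNK G (b * (4 ^ r - 4) + 2 + t) (2 * r - 2) ∧
      G.Connected ∧ G.diam = 3 := by
  have hb : 0 < b := by omega
  obtain ⟨q, hq⟩ : ∃ q, 4 ^ r = 2 * q := by
    obtain ⟨s, rfl⟩ := Nat.exists_eq_add_of_le hr
    refine ⟨8 * 4 ^ s, ?_⟩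
    rw [pow_add]
    ring
  have hq8 : 8 ≤ q := by
    have : 4 ^ 2 ≤ 4 ^ r := Nat.pow_le_pow_right (by norm_num) hr
    omega
  have hW : Nonempty ({x : VV r // x ≠ 0} × Fin b) := by
    have h1 : 0 < Nat.card ({x : VV r // x ≠ 0} × Fin b) := by
      rw [card_orth hq]
      exact Nat.mul_pos hb (by omega)
    exact (Nat.card_pos_iff.1 h1).1
  refine ⟨_, ext (dbl (orth r b)) (Set.range Sum.inl) t, inferInstance, ?_,
    diam_ext (orth_pair hr) t⟩
  have h2 : b * (4 ^ r - 4) + 2 + t = 2 * (b * (q - 2)) + 2 + t := by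
    have : 4 ^ r - 4 = 2 * (q - 2) := by omega
    rw [this]
    ring
  rw [h2]
  apply nk_ext (orth_conn hq) (fun A hA => orth_cuts hb hq (by omega) A hA)
  rw [card_orth hq]
  have h3 : b * (2 * q - 1) = 2 * (b * (q - 2)) + 3 * b := by
    have : 2 * q - 1 = 2 * (q - 2) + 3 := by omega
    rw [this]
    ring
  omega

/-- For `r ≥ 2` and all `n ≥ 16 ^ r / 3` there is an `(n, 2 r - 2)`-graph of diameter three. -/
theorem exists_log (r n : ℕ) (hr : 2 ≤ r) (hn : 16 ^ r ≤ 3 * n) :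
    ∃ (V : Type) (G : SimpleGraph V), Finite V ∧ IsNK G n (2 * r - 2) ∧ G.Connected ∧
      G.diam = 3 := by
  set q := 4 ^ r with hq
  have h16 : (16 : ℕ) ^ r = q * q := by
    rw [hq, ← mul_pow]
    norm_num
  have hq16 : 16 ≤ q := by
    have : 4 ^ 2 ≤ 4 ^ r := Nat.pow_le_pow_right (by norm_num) hr
    omega
  rw [h16] at hn
  set D := q - 4 with hD
  set b := (n - 2) / D with hb
  set t := (n - 2) % D with ht
  have h1 : D * b + t = n - 2 := Nat.div_add_mod (n - 2) D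
  have h2 : t < D := Nat.mod_lt _ (by omega)
  have h3 : q / 3 ≤ b := by
    rw [hb, Nat.le_div_iff_mul_le (by omega)]
    have h4 : 3 * (q / 3) ≤ q := Nat.mul_div_le q 3
    have h5 : q * D = q * q - 4 * q := by
      rw [hD, Nat.mul_sub]
      ring_nf
    have h6 : 3 * (q / 3) * D ≤ q * D := Nat.mul_le_mul_right D h4
    have h7 : 3 * (q / 3 * D) = 3 * (q / 3) * D := by ring
    omega
  have h8 : n = b * (4 ^ r - 4) + 2 + t := by
    have : b * (4 ^ r - 4) = D * b := by rw [mul_comm]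
    rw [this]
    have : 0 < q * q := by positivity
    have : 16 * 16 ≤ q * q := Nat.mul_le_mul hq16 hq16
    omega
  rw [h8]
  exact exists_fam r b t hr (by omega)

end Pool.Agent.W5h84.NK
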