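import Pool.Agent.W5h84.NK.Atom
import Pool.Agent.W5h84.NK.Crit

set_option autoImplicit false

/-!
# Direct powers of complete graphs
-/

namespace Pool.Agent.W5h84.NK

open SimpleGraph

/-- The direct power: two functions are adjacent if they differ everywhere. -/
def pw (M r : ℕ) : SimpleGraph (Fin M → Fin r) where
  Adj x y := x ≠ y ∧ ∀ t, x t ≠ y t
  symm := ⟨fun _ _ h => ⟨h.1.symm, fun t => (h.2 t).symm⟩⟩
  loopless := ⟨fun _ h => h.1 rfl⟩

variable {M r : ℕ}

lemma pw_adj (hM : 0 < M) {x y : Fin M → Fin r} : (pw M r).Adj x y ↔ ∀ t, x t ≠ y t := by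
  constructor
  · exact fun h => h.2
  · intro h
    exact ⟨fun he => h ⟨0, hM⟩ (by rw [he]), h⟩

lemma exists_perm {α : Type} [DecidableEq α] {a b a' b' : α} (h : a ≠ b) (h' : a' ≠ b') :
    ∃ σ : Equiv.Perm α, σ a = a' ∧ σ b = b' := by
  set σ1 := Equiv.swap a a' with h1
  have e1 : σ1 a = a' := Equiv.swap_apply_left a a'
  have e2 : σ1 b ≠ a' := by
    rw [← e1]
    exact fun he => h (σ1.injective he).symm
  refine ⟨Equiv.swap (σ1 b) b' * σ1, ?_, ?_⟩
  · rw [Equiv.Perm.mul_apply, e1]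
    exact Equiv.swap_apply_of_ne_of_ne e2.symm h'
  · rw [Equiv.Perm.mul_apply]
    exact Equiv.swap_apply_left _ _

lemma pw_arc (hM : 0 < M) (x y x' y' : Fin M → Fin r) (h : (pw M r).Adj x y)
    (h' : (pw M r).Adj x' y') : ∃ φ : pw M r ≃g pw M r, φ x = x' ∧ φ y = y' := by
  rw [pw_adj hM] at h h'
  choose σ h1 h2 using fun t => exists_perm (h t) (h' t)
  refine ⟨⟨Equiv.piCongrRight σ, ?_⟩, ?_, ?_⟩
  · intro a b
    rw [pw_adj hM, pw_adj hM]
    simp only [Equiv.piCongrRight_apply, Pi.map_apply, ne_eq, EmbeddingLike.apply_eq_iff_eq]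
  · funext t
    exact h1 t
  · funext t
    exact h2 t

lemma pw_reg (hM : 0 < M) (x : Fin M → Fin r) : ((pw M r).neighborSet x).ncard = (r - 1) ^ M := by
  have h : (pw M r).neighborSet x = ↑(Fintype.piFinset (fun t => ({x t} : Finset (Fin r))ᶜ)) := by
    ext y
    rw [SimpleGraph.mem_neighborSet, pw_adj hM, Finset.mem_coe, Fintype.mem_piFinset]
    simp only [Finset.mem_compl, Finset.mem_singleton]
    exact forall_congr' fun t => ne_comm
  rw [h, Set.ncard_coe_finset, Fintype.card_piFinset]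
  simp only [Finset.card_compl, Finset.card_singleton, Fintype.card_fin, Finset.prod_const,
    Finset.card_univ]

lemma pw_common (hM : 0 < M) (A : Set (Fin M → Fin r)) (hA : A.ncard < r) :
    ∃ m, ∀ a ∈ A, (pw M r).Adj m a := by
  have h : ∀ t : Fin M, ∃ v : Fin r, ∀ a ∈ A, v ≠ a t := by
    intro t
    by_contra hcon
    push Not at hcon
    have h1 : (Set.univ : Set (Fin r)) ⊆ (fun a => a t) '' A := by
      intro v _
      obtain ⟨a, ha, hav⟩ := hcon v
      exact ⟨a, ha, hav.symm⟩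
    have h2 := Set.ncard_le_ncard h1 (Set.toFinite _)
    have h3 := Set.ncard_image_le (f := fun a : Fin M → Fin r => a t) (Set.toFinite A)
    rw [Set.ncard_univ, Nat.card_eq_fintype_card, Fintype.card_fin] at h2
    omega
  choose m hm using h
  exact ⟨m, fun a ha => (pw_adj hM).2 fun t => hm t a ha⟩

lemma pow_ineq (q : ℕ) (hq : 0 < q) : 2 * q ^ (3 * q) + 2 ≤ (q + 1) ^ (3 * q) := by
  have hq' : (0 : ℝ) < q := by exact_mod_cast hq
  have h1 : (1 : ℝ) + (3 * q : ℕ) * (1 / q) ≤ (1 + 1 / q) ^ (3 * q) :=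
    one_add_mul_le_pow (by have : (0 : ℝ) < 1 / q := by positivity
                           linarith) _
  have h2 : (1 : ℝ) + (3 * q : ℕ) * (1 / q) = 4 := by
    push_cast
    field_simp
    norm_num
  have h3 : ((q : ℝ) + 1) ^ (3 * q) = q ^ (3 * q) * (1 + 1 / q) ^ (3 * q) := by
    rw [← mul_pow]
    congr 1
    field_simp
  have h4 : (4 : ℝ) * q ^ (3 * q) ≤ ((q : ℝ) + 1) ^ (3 * q) := by
    rw [h3, mul_comm]
    exact mul_le_mul_of_nonneg_left (h2 ▸ h1) (by positivity)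
  have h5 : 4 * q ^ (3 * q) ≤ (q + 1) ^ (3 * q) := by exact_mod_cast h4
  have h6 : 1 ≤ q ^ (3 * q) := Nat.one_le_pow _ _ hq
  omega

/-- For every `k` there is an `(n, k)`-graph of diameter three, `n = 2 (k + 1) ^ (3 (k + 1)) + 2`. -/
theorem exists_all (k : ℕ) (hk : 1 ≤ k) : ∃ (V : Type) (G : SimpleGraph V), Finite V ∧
    IsNK G (2 * (k + 1) ^ (3 * (k + 1)) + 2) k ∧ G.Connected ∧ G.diam = 3 := by
  have hM : 0 < 3 * (k + 1) := by omega
  have hcard : 2 * (k + 1) ^ (3 * (k + 1)) + 2 ≤ Nat.card (Fin (3 * (k + 1)) → Fin (k + 2)) := by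
    rw [Nat.card_eq_fintype_card, Fintype.card_fun, Fintype.card_fin, Fintype.card_fin]
    exact pow_ineq (k + 1) (by omega)
  have hreg : ∀ x, ((pw (3 * (k + 1)) (k + 2)).neighborSet x).ncard = (k + 1) ^ (3 * (k + 1)) := by
    intro x
    rw [pw_reg hM]
    congr 1
  have hpair : ∀ i j : Fin (3 * (k + 1)) → Fin (k + 2), ∃ m,
      (pw (3 * (k + 1)) (k + 2)).Adj m i ∧ (pw (3 * (k + 1)) (k + 2)).Adj m j := by
    intro i j
    obtain ⟨m, hm⟩ := pw_common hM {i, j} (by
      refine (Set.ncard_insert_le i {j}).trans_lt ?_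
      rw [Set.ncard_singleton]
      omega)
    exact ⟨m, hm i (by simp), hm j (by simp)⟩
  refine ⟨((Fin (3 * (k + 1)) → Fin (k + 2)) × Bool) ⊕ Bool, dbl (pw (3 * (k + 1)) (k + 2)),
    inferInstance, ?_, ?_⟩
  · exact isNK_dbl hreg (conn_arc hreg hpair (pw_arc hM)) hcard
      (fun A hA => pw_common hM A (by omega))
  · exact diam_dbl (fun A hA => pw_common hM A (by omega))

end Pool.Agent.W5h84.NK
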